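import Pool.Agent.X76.PM3
import Pool.Agent.MPd14d18.Star
import Pool.Agent.H301R2.HR.T_DW

set_option autoImplicit false

/-! Perfect matchings from an edge-coloured graph and a complete bipartite graph. -/

namespace Pool.Agent.NH75.MP

open Finset SimpleGraph Pool.Agent.X76.PM

/-- `F` has a proper edge colouring with `k` colours each of which misses exactly `s` vertices. -/
theorem balanced {U : Type} [Fintype U] [DecidableEq U] (F : SimpleGraph U) [DecidableRel F.Adj]
    (k s : ℕ) (h1 : ∀ v, F.degree v + 1 ≤ k) (hpar : s % 2 = Fintype.card U % 2)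
    (hsum : ∑ v, F.degree v + k * s = k * Fintype.card U) :
    ∃ φ : Fin k → U → U, (∀ c x, φ c (φ c x) = x) ∧
      (∀ c x, φ c x ≠ x → F.Adj x (φ c x)) ∧
      (∀ c c' x, φ c x ≠ x → φ c x = φ c' x → c = c') ∧
      (∀ v, (univ.filter fun c => φ c v = v).card + F.degree v = k) ∧
      ∀ c, (univ.filter fun x => φ c x = x).card = s := by
  classical
  rcases isEmpty_or_nonempty U with hU | ⟨⟨u0⟩⟩
  · refine ⟨fun _ x => x, fun _ x => hU.elim x, fun _ x => hU.elim x, fun _ _ x => hU.elim x,
      fun x => hU.elim x, ?_⟩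
    intro c
    have h3 : Fintype.card U = 0 := Fintype.card_eq_zero
    rw [h3] at hsum
    have hk : 0 < k := c.pos
    have : s = 0 := by
      have : k * s = 0 := by omega
      rcases Nat.mul_eq_zero.1 this with h | h
      · omega
      · exact h
    rw [this, Finset.card_eq_zero]
    ext x
    exact hU.elim x
  have hk : 1 ≤ k := by have := h1 u0; omega
  obtain ⟨N, hN1, hN2, hN3, hN4⟩ := Pool.Agent.MPd14d18.vizing_family F (range k) (k - 1)
    (fun v => by have := h1 v; omega) (by rw [card_range]; omega)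
  let φ0 : Fin k → U → U := fun c x => N c.val x
  have hmiss : ∀ v, (univ.filter fun c : Fin k => φ0 c v = v).card + F.degree v = k := by
    intro v
    have h1 := hN4 v
    rw [card_range, Finset.card_filter] at h1
    rw [Finset.card_filter]
    have h2 := Fin.sum_univ_eq_sum_range (fun c => if N c v = v then 1 else 0) k
    have h3 : ∑ c : Fin k, (if φ0 c v = v then 1 else 0) =
        ∑ c ∈ range k, (if N c v = v then 1 else 0) := h2
    omega
  have hfx : ∑ c, fx (φ0 c) = ∑ _c : Fin k, s := by
    have e1 : ∑ c, fx (φ0 c) = ∑ v, (univ.filter fun c : Fin k => φ0 c v = v).card := by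
      simp only [fx, Finset.card_filter]
      rw [Finset.sum_comm]
    have e2 : ∑ v, ((univ.filter fun c : Fin k => φ0 c v = v).card + F.degree v) =
        ∑ _v : U, k := Finset.sum_congr rfl (fun v _ => hmiss v)
    rw [Finset.sum_add_distrib, Finset.sum_const, card_univ, smul_eq_mul] at e2
    rw [e1, Finset.sum_const, card_univ, Fintype.card_fin, smul_eq_mul]
    have e3 : Fintype.card U * k = k * Fintype.card U := mul_comm _ _
    omega
  obtain ⟨φ, hφ1, hφ2, hφ3⟩ := kempe_target (fun _ : Fin k => s) (fun _ => hpar)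
    (fun _ _ => by omega) _ φ0 (fun c x => hN1 c.val x) hfx le_rfl
  refine ⟨φ, hφ1, ?_, ?_, ?_, hφ3⟩
  · intro c x hne
    have h := hφ2 x (φ c x)
    have h' : 0 < (univ.filter fun c' => φ0 c' x = φ c x).card := by
      rw [← h, Finset.card_pos]
      exact ⟨c, by simp⟩
    obtain ⟨c', hc'⟩ := Finset.card_pos.1 h'
    have hc2 := (mem_filter.1 hc').2
    have := hN2 c'.val (mem_range.2 c'.2) x (by
      intro h3
      apply hne
      rw [← hc2]
      exact h3)
    rw [← hc2]
    exact this
  · intro c c' x hne heq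
    have h := hφ2 x (φ c x)
    have h2 : (univ.filter fun c' => φ0 c' x = φ c x).card ≤ 1 := by
      rw [Finset.card_le_one]
      intro d hd d' hd'
      rw [mem_filter] at hd hd'
      apply Fin.ext
      refine hN3 d.val (mem_range.2 d.2) d'.val (mem_range.2 d'.2) x ?_ ?_
      · intro h3
        apply hne
        rw [← hd.2]; exact h3
      · exact hd.2.trans hd'.2.symm
    rw [← h, Finset.card_le_one] at h2
    exact h2 c (by simp) c' (by simp [heq])
  · intro v
    rw [hφ2 v v]
    exact hmiss v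

/-- The assembly: a graph `F` on `U` with the right number of edges and degrees, extended by `s`
vertices adjacent to all of `U`. -/
theorem assemble {U : Type} [Fintype U] [DecidableEq U] (F : SimpleGraph U) [DecidableRel F.Adj]
    (k s : ℕ) (h1 : ∀ v, F.degree v + 1 ≤ k) (h2 : ∀ v, k ≤ F.degree v + s)
    (hpar : s % 2 = Fintype.card U % 2)
    (hsum : ∑ v, F.degree v + k * s = k * Fintype.card U) :
    ∃ M : Fin k → U ⊕ Fin s → U ⊕ Fin s, (∀ c x, M c (M c x) = x) ∧
      (∀ c v w, M c (Sum.inl v) = Sum.inl w → F.Adj v w) ∧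
      (∀ c i j, M c (Sum.inr i) ≠ Sum.inr j) ∧
      (∀ c c' x, M c x = M c' x → c = c') := by
  classical
  obtain ⟨φ, hφ1, hφ2, hφ3, hφ4, hφ5⟩ := balanced F k s h1 hpar hsum
  let E : Type := {p : Fin k × U // φ p.1 p.2 = p.2}
  obtain ⟨col, hc1, hc2⟩ := Pool.Agent.H301R2.HR.DW.koenig_le (fun e : E => e.1.1)
    (fun e : E => e.1.2) s (by
      intro c
      rw [Nat.card_eq_fintype_card]
      rw [← hφ5 c]
      rw [← Fintype.card_subtype]
      refine (Fintype.card_le_of_injective (fun e : {e : E // e.1.1 = c} =>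
        (⟨e.1.1.2, by have := e.1.2; rw [e.2] at this; exact this⟩ : {x // φ c x = x})) ?_)
      rintro ⟨⟨⟨c1, x1⟩, h1⟩, rfl⟩ ⟨⟨⟨c2, x2⟩, h2⟩, h3⟩ h
      simp only [Subtype.mk.injEq] at h h3
      subst h
      subst h3
      rfl)
    (by
      intro v
      rw [Nat.card_eq_fintype_card]
      have h3 : (univ.filter fun c => φ c v = v).card ≤ s := by
        have := hφ4 v
        have := h2 v
        omega
      refine le_trans ?_ h3
      rw [← Fintype.card_subtype]
      refine (Fintype.card_le_of_injective (fun e : {e : E // e.1.2 = v} =>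
        (⟨e.1.1.1, by have := e.1.2; rw [e.2] at this; exact this⟩ : {c // φ c v = v})) ?_)
      rintro ⟨⟨⟨c1, x1⟩, h1⟩, rfl⟩ ⟨⟨⟨c2, x2⟩, h2⟩, h3⟩ h
      simp only [Subtype.mk.injEq] at h h3
      subst h
      subst h3
      rfl)
  -- the vertex of `U` joined to `i` in the class `c`
  have hbij : ∀ c : Fin k, ∀ i : Fin s, ∃ v : U, ∃ h : φ c v = v, col ⟨(c, v), h⟩ = i := by
    intro c
    let f : {x // φ c x = x} → Fin s := fun x => col ⟨(c, x.1), x.2⟩
    have hinj : Function.Injective f := by
      rintro ⟨x, hx⟩ ⟨y, hy⟩ hxy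
      have h3 := hc1 ⟨(c, x), hx⟩ ⟨(c, y), hy⟩ rfl hxy
      have h4 := congrArg (fun e : E => e.1.2) h3
      exact Subtype.ext h4
    have hcard : Fintype.card {x // φ c x = x} = Fintype.card (Fin s) := by
      rw [Fintype.card_subtype, hφ5 c, Fintype.card_fin]
    have hbij := (Fintype.bijective_iff_injective_and_card f).2 ⟨hinj, hcard⟩
    intro i
    obtain ⟨x, hx⟩ := hbij.2 i
    exact ⟨x.1, x.2, hx⟩
  choose g hg1 hg2 using hbij
  let M : Fin k → U ⊕ Fin s → U ⊕ Fin s := fun c x => match x with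
    | Sum.inl v => if h : φ c v = v then Sum.inr (col ⟨(c, v), h⟩) else Sum.inl (φ c v)
    | Sum.inr i => Sum.inl (g c i)
  have hM1 : ∀ c v (h : φ c v = v), M c (Sum.inl v) = Sum.inr (col ⟨(c, v), h⟩) := by
    intro c v h
    simp only [M, dif_pos h]
  have hM2 : ∀ c v, φ c v ≠ v → M c (Sum.inl v) = Sum.inl (φ c v) := by
    intro c v h
    simp only [M, dif_neg h]
  have hM3 : ∀ c i, M c (Sum.inr i) = Sum.inl (g c i) := fun c i => rfl
  refine ⟨M, ?_, ?_, ?_, ?_⟩
  · intro c x
    rcases x with v | i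
    · by_cases h : φ c v = v
      · rw [hM1 c v h, hM3]
        congr 1
        have h3 := hc1 ⟨(c, g c (col ⟨(c, v), h⟩)), hg1 c _⟩ ⟨(c, v), h⟩ rfl (hg2 c _)
        exact congrArg (fun e : E => e.1.2) h3
      · rw [hM2 c v h, hM2 c (φ c v), hφ1]
        rw [hφ1]
        exact fun h' => h h'.symm
    · rw [hM3, hM1 c _ (hg1 c i), hg2]
  · intro c v w h
    by_cases h' : φ c v = v
    · rw [hM1 c v h'] at h
      exact absurd h (by simp)
    · rw [hM2 c v h'] at h
      rw [← Sum.inl.inj h]
      exact hφ2 c v h'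
  · intro c i j h
    rw [hM3] at h
    exact absurd h (by simp)
  · intro c c' x h
    rcases x with v | i
    · by_cases h3 : φ c v = v
      · by_cases h4 : φ c' v = v
        · rw [hM1 c v h3, hM1 c' v h4] at h
          have h5 := hc2 ⟨(c, v), h3⟩ ⟨(c', v), h4⟩ rfl (Sum.inr.inj h)
          exact congrArg (fun e : E => e.1.1) h5
        · rw [hM1 c v h3, hM2 c' v h4] at h
          exact absurd h (by simp)
      · by_cases h4 : φ c' v = v
        · rw [hM2 c v h3, hM1 c' v h4] at h
          exact absurd h (by simp)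
        · rw [hM2 c v h3, hM2 c' v h4] at h
          exact hφ3 c c' v h3 (Sum.inl.inj h)
    · rw [hM3, hM3] at h
      have h5 := Sum.inl.inj h
      have h6 : col ⟨(c, g c i), hg1 c i⟩ = col ⟨(c', g c i), by rw [h5]; exact hg1 c' i⟩ := by
        rw [hg2 c i]
        have : ∀ (v : U) (hv : v = g c' i) (hv2 : φ c' v = v), i = col ⟨(c', v), hv2⟩ := by
          rintro v rfl hv2
          exact (hg2 c' i).symm
        exact this _ h5 _
      have h7 := hc2 ⟨(c, g c i), hg1 c i⟩ ⟨(c', g c i), by rw [h5]; exact hg1 c' i⟩ rfl h6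
      exact congrArg (fun e : E => e.1.1) h7

end Pool.Agent.NH75.MP
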