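import Mathlib

set_option autoImplicit false
set_option linter.unusedSectionVars false

/-! A graph between different classes with bounded degrees and a prescribed number of edges. -/

namespace Pool.Agent.NH75.MP

open Finset SimpleGraph

variable {V ℓ : Type} [Fintype V] [DecidableEq V] [DecidableEq ℓ]

/-- row sums -/
def row (f : Sym2 V → ℤ) (u : V) : ℤ := ∑ v, f s(u, v)

theorem row_update (f : Sym2 V → ℤ) (p q : V) (hpq : p ≠ q) (t : ℤ) (u : V) :
    row (Function.update f s(p, q) t) u =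
      row f u + (t - f s(p, q)) * ((if u = p then 1 else 0) + (if u = q then 1 else 0)) := by
  unfold row
  have h1 : ∀ v, Function.update f s(p, q) t s(u, v) = f s(u, v) +
      (t - f s(p, q)) * ((if u = p ∧ v = q then 1 else 0) + (if u = q ∧ v = p then 1 else 0)) := by
    intro v
    by_cases h : s(u, v) = s(p, q)
    · rw [h, Function.update_self]
      rw [Sym2.eq_iff] at h
      rcases h with ⟨rfl, rfl⟩ | ⟨rfl, rfl⟩
      · rw [if_pos ⟨rfl, rfl⟩, if_neg (fun h => hpq h.1)]
        ring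
      · rw [if_neg (fun h => hpq h.2), if_pos ⟨rfl, rfl⟩]
        ring
    · rw [Function.update_of_ne h]
      rw [if_neg, if_neg]
      · ring
      · rintro ⟨rfl, rfl⟩
        exact h Sym2.eq_swap
      · rintro ⟨rfl, rfl⟩
        exact h rfl
  rw [Finset.sum_congr rfl (fun v _ => h1 v), Finset.sum_add_distrib, ← Finset.mul_sum,
    Finset.sum_add_distrib]
  congr 2
  congr 1
  · by_cases hu : u = p <;> simp [hu]
  · by_cases hu : u = q <;> simp [hu]

/-- admissible edge functions -/
structure Adm (Q : Finset V) (κ : V → ℓ) (cap : V → ℕ) (f : Sym2 V → ℤ) : Prop where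
  zo : ∀ e, f e = 0 ∨ f e = 1
  sup : ∀ u v, f s(u, v) = 1 → u ∈ Q ∧ v ∈ Q ∧ κ u ≠ κ v
  le : ∀ u, row f u ≤ cap u

theorem Adm.row_nonneg {Q : Finset V} {κ : V → ℓ} {cap : V → ℕ} {f : Sym2 V → ℤ}
    (h : Adm Q κ cap f) (u : V) : 0 ≤ row f u := by
  apply Finset.sum_nonneg
  intro v _
  rcases h.zo s(u, v) with h | h <;> omega

theorem Adm.row_zero {Q : Finset V} {κ : V → ℓ} {cap : V → ℕ} {f : Sym2 V → ℤ}
    (h : Adm Q κ cap f) (u : V) (hu : u ∉ Q) : row f u = 0 := by
  apply Finset.sum_eq_zero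
  intro v _
  rcases h.zo s(u, v) with h1 | h1
  · exact h1
  · exact absurd (h.sup u v h1).1 hu

theorem Adm.row_eq {Q : Finset V} {κ : V → ℓ} {cap : V → ℕ} {f : Sym2 V → ℤ}
    (h : Adm Q κ cap f) (u : V) :
    row f u = ((univ.filter fun v => f s(u, v) = 1).card : ℤ) := by
  unfold row
  rw [Finset.card_filter]
  push_cast
  apply Finset.sum_congr rfl
  intro v _
  rcases h.zo s(u, v) with h1 | h1 <;> simp [h1]

/-- adding one edge between two unsaturated vertices -/
theorem Adm.add {Q : Finset V} {κ : V → ℓ} {cap : V → ℕ} {f : Sym2 V → ℤ}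
    (h : Adm Q κ cap f) {x y : V} (hx : x ∈ Q) (hy : y ∈ Q) (hxy : κ x ≠ κ y)
    (hf : f s(x, y) ≠ 1) (h1 : row f x < cap x) (h2 : row f y < cap y) :
    ∃ f', Adm Q κ cap f' ∧ ∑ u, row f' u = ∑ u, row f u + 2 := by
  have hne : x ≠ y := fun h => hxy (by rw [h])
  have hf0 : f s(x, y) = 0 := (h.zo _).resolve_right hf
  refine ⟨Function.update f s(x, y) 1, ⟨?_, ?_, ?_⟩, ?_⟩
  · intro e
    by_cases he : e = s(x, y)
    · subst he; rw [Function.update_self]; exact Or.inr rfl
    · rw [Function.update_of_ne he]; exact h.zo e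
  · intro u v huv
    by_cases he : s(u, v) = s(x, y)
    · rw [Sym2.eq_iff] at he
      rcases he with ⟨rfl, rfl⟩ | ⟨rfl, rfl⟩
      · exact ⟨hx, hy, hxy⟩
      · exact ⟨hy, hx, hxy.symm⟩
    · rw [Function.update_of_ne he] at huv
      exact h.sup u v huv
  · intro u
    rw [row_update f x y hne, hf0]
    have := h.le u
    by_cases hux : u = x
    · subst hux
      rw [if_pos rfl, if_neg hne]
      omega
    · by_cases huy : u = y
      · subst huy
        rw [if_neg hux, if_pos rfl]
        omega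
      · rw [if_neg hux, if_neg huy]
        omega
  · rw [Finset.sum_congr rfl (fun u _ => row_update f x y hne 1 u), Finset.sum_add_distrib, hf0]
    congr 1
    rw [← Finset.mul_sum, Finset.sum_add_distrib]
    simp

/-- One step: more edges. -/
theorem Adm.step {Q : Finset V} {κ : V → ℓ} {cap : V → ℕ} {f : Sym2 V → ℤ}
    (h : Adm Q κ cap f)
    (hcap : ∀ u ∈ Q, ∀ v ∈ Q, κ u = κ v → cap u = cap v)
    (hlt : ∀ u ∈ Q, ∀ v ∈ Q, κ u ≠ κ v → cap u < (Q.filter fun w => κ w = κ v).card)
    (τ : ℕ) (hdom0 : 2 * τ ≤ ∑ v ∈ Q, cap v)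
    (hdom : ∀ m, ∑ v ∈ Q.filter (fun w => κ w = m), cap v + 2 * τ ≤ ∑ v ∈ Q, cap v)
    (hτ : ∑ u, row f u < 2 * τ) :
    ∃ f', Adm Q κ cap f' ∧ ∑ u, row f' u = ∑ u, row f u + 2 := by
  classical
  have hsumQ : ∑ u ∈ Q, row f u = ∑ u, row f u := by
    apply Finset.sum_subset (subset_univ _)
    intro u _ hu
    exact h.row_zero u hu
  -- unsaturated vertices outside any class
  have huns : ∀ m, ∃ v ∈ Q, κ v ≠ m ∧ row f v < cap v := by
    intro m
    by_contra hcon
    push Not at hcon
    have h1 : ∑ v ∈ Q.filter (fun w => ¬ κ w = m), (cap v : ℤ) ≤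
        ∑ v ∈ Q.filter (fun w => ¬ κ w = m), row f v := by
      apply Finset.sum_le_sum
      intro v hv
      rw [mem_filter] at hv
      exact hcon v hv.1 hv.2
    have h2 : ∑ v ∈ Q.filter (fun w => ¬ κ w = m), row f v ≤ ∑ v ∈ Q, row f v :=
      Finset.sum_le_sum_of_subset_of_nonneg (filter_subset _ _) (fun v _ _ => h.row_nonneg v)
    have h3 : ∑ v ∈ Q.filter (fun w => κ w = m), (cap v : ℤ) +
        ∑ v ∈ Q.filter (fun w => ¬ κ w = m), (cap v : ℤ) = ∑ v ∈ Q, (cap v : ℤ) :=
      Finset.sum_filter_add_sum_filter_not Q _ _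
    have h4 : ((∑ v ∈ Q.filter (fun w => κ w = m), cap v + 2 * τ : ℕ) : ℤ) ≤
        ((∑ v ∈ Q, cap v : ℕ) : ℤ) := by exact_mod_cast hdom m
    push_cast at h4
    linarith
  have huns0 : ∃ v ∈ Q, row f v < cap v := by
    by_contra hcon
    push Not at hcon
    have h1 : ∑ v ∈ Q, (cap v : ℤ) ≤ ∑ v ∈ Q, row f v := Finset.sum_le_sum hcon
    have h4 : ((2 * τ : ℕ) : ℤ) ≤ ((∑ v ∈ Q, cap v : ℕ) : ℤ) := by exact_mod_cast hdom0
    push_cast at h4
    linarith
  obtain ⟨x, hx, hxu⟩ := huns0
  obtain ⟨y, hy, hxy, hyu⟩ := huns (κ x)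
  by_cases hadj : f s(x, y) = 1
  swap
  · exact h.add hx hy hxy.symm hadj hxu hyu
  -- a non-neighbour of `x` in the class of `y`
  obtain ⟨y', hy', hκ', hna⟩ : ∃ y' ∈ Q, κ y' = κ y ∧ f s(x, y') ≠ 1 := by
    by_contra hcon
    push Not at hcon
    have h1 : Q.filter (fun w => κ w = κ y) ⊆ univ.filter fun v => f s(x, v) = 1 := by
      intro w hw
      rw [mem_filter] at hw ⊢
      exact ⟨mem_univ _, hcon w hw.1 hw.2⟩
    have h2 := card_le_card h1
    have h3 := hlt x hx y hy hxy.symm
    have h4 := h.row_eq x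
    have h5 : ((univ.filter fun v => f s(x, v) = 1).card : ℤ) < cap x := by rw [← h4]; exact hxu
    have h6 : (univ.filter fun v => f s(x, v) = 1).card < cap x := by exact_mod_cast h5
    omega
  by_cases hsat : row f y' < cap y'
  · exact h.add hx hy' (by rw [hκ']; exact hxy.symm) hna hxu hsat
  have hsat' : row f y' = cap y' := le_antisymm (h.le y') (not_lt.1 hsat)
  have hcapy : cap y' = cap y := hcap y' hy' y hy hκ'
  -- a neighbour of `y'` which is not a neighbour of `y`
  obtain ⟨z, hz1, hz2⟩ : ∃ z, f s(y', z) = 1 ∧ f s(y, z) ≠ 1 := by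
    by_contra hcon
    push Not at hcon
    have h1 : (univ.filter fun v => f s(y', v) = 1) ⊆ univ.filter fun v => f s(y, v) = 1 := by
      intro w hw
      rw [mem_filter] at hw ⊢
      exact ⟨mem_univ _, hcon w hw.2⟩
    have h2 := card_le_card h1
    have h3 := h.row_eq y
    have h4 := h.row_eq y'
    have h5 : row f y' ≤ row f y := by
      rw [h3, h4]
      exact_mod_cast h2
    rw [hsat', hcapy] at h5
    omega
  obtain ⟨-, hzQ, hκz⟩ := h.sup _ _ hz1
  have hxz : x ≠ z := by
    rintro rfl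
    rw [Sym2.eq_swap] at hz1
    exact hna hz1
  have hyy : y ≠ y' := by
    rintro rfl
    exact hna hadj
  have hyz : y ≠ z := by
    rintro rfl
    exact hκz hκ'
  have hyz' : y' ≠ z := by
    rintro rfl
    exact hκz rfl
  have hxy1 : x ≠ y := fun h => hxy (by rw [h])
  have hxy' : x ≠ y' := by
    rintro rfl
    exact hxy hκ'.symm
  have hf1 : f s(y, z) = 0 := (h.zo _).resolve_right hz2
  have hf2 : f s(x, y') = 0 := (h.zo _).resolve_right hna
  let f1 := Function.update f s(y', z) 0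
  let f2 := Function.update f1 s(y, z) 1
  let f3 := Function.update f2 s(x, y') 1
  have n1 : s(y, z) ≠ s(y', z) := by
    rw [Ne, Sym2.eq_iff]
    rintro (⟨h1, -⟩ | ⟨h1, -⟩)
    · exact hyy h1
    · exact hyz h1
  have n2 : s(x, y') ≠ s(y, z) := by
    rw [Ne, Sym2.eq_iff]
    rintro (⟨h1, -⟩ | ⟨h1, -⟩)
    · exact hxy1 h1
    · exact hxz h1
  have n3 : s(x, y') ≠ s(y', z) := by
    rw [Ne, Sym2.eq_iff]
    rintro (⟨h1, -⟩ | ⟨h1, -⟩)
    · exact hxy' h1
    · exact hxz h1
  have v1 : f1 s(y, z) = 0 := by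
    simp only [f1]; rw [Function.update_of_ne n1]; exact hf1
  have v2 : f2 s(x, y') = 0 := by
    simp only [f2, f1]; rw [Function.update_of_ne n2, Function.update_of_ne n3]; exact hf2
  have hrow : ∀ u, row f3 u = row f u + (if u = x then 1 else 0) + (if u = y then 1 else 0) := by
    intro u
    have r3 := row_update f2 x y' hxy' 1 u
    have r2 := row_update f1 y z hyz 1 u
    have r1 := row_update f y' z hyz' 0 u
    rw [v2] at r3
    rw [v1] at r2
    rw [hz1] at r1
    have e3 : row f3 u = row f2 u + (1 - 0) * ((if u = x then 1 else 0) +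
      (if u = y' then 1 else 0)) := r3
    have e2 : row f2 u = row f1 u + (1 - 0) * ((if u = y then 1 else 0) +
      (if u = z then 1 else 0)) := r2
    have e1 : row f1 u = row f u + (0 - 1) * ((if u = y' then 1 else 0) +
      (if u = z then 1 else 0)) := r1
    rw [e3, e2, e1]
    ring
  refine ⟨f3, ⟨?_, ?_, ?_⟩, ?_⟩
  · intro e
    simp only [f3, f2, f1]
    by_cases h1 : e = s(x, y')
    · subst h1; rw [Function.update_self]; exact Or.inr rfl
    · rw [Function.update_of_ne h1]
      by_cases h2 : e = s(y, z)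
      · subst h2; rw [Function.update_self]; exact Or.inr rfl
      · rw [Function.update_of_ne h2]
        by_cases h3 : e = s(y', z)
        · subst h3; rw [Function.update_self]; exact Or.inl rfl
        · rw [Function.update_of_ne h3]; exact h.zo e
  · intro u v huv
    simp only [f3, f2, f1] at huv
    by_cases h1 : s(u, v) = s(x, y')
    · rw [Sym2.eq_iff] at h1
      rcases h1 with ⟨rfl, rfl⟩ | ⟨rfl, rfl⟩
      · exact ⟨hx, hy', by rw [hκ']; exact hxy.symm⟩
      · exact ⟨hy', hx, by rw [hκ']; exact hxy⟩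
    · rw [Function.update_of_ne h1] at huv
      by_cases h2 : s(u, v) = s(y, z)
      · rw [Sym2.eq_iff] at h2
        rcases h2 with ⟨rfl, rfl⟩ | ⟨rfl, rfl⟩
        · exact ⟨hy, hzQ, by rw [← hκ']; exact hκz⟩
        · exact ⟨hzQ, hy, by rw [← hκ']; exact hκz.symm⟩
      · rw [Function.update_of_ne h2] at huv
        by_cases h3 : s(u, v) = s(y', z)
        · rw [h3, Function.update_self] at huv
          exact absurd huv (by norm_num)
        · rw [Function.update_of_ne h3] at huv
          exact h.sup u v huv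
  · intro u
    rw [hrow u]
    have := h.le u
    by_cases hux : u = x
    · subst hux
      rw [if_pos rfl, if_neg hxy1]
      omega
    · by_cases huy : u = y
      · subst huy
        rw [if_neg hux, if_pos rfl]
        omega
      · rw [if_neg hux, if_neg huy]
        omega
  · rw [Finset.sum_congr rfl (fun u _ => hrow u), Finset.sum_add_distrib, Finset.sum_add_distrib]
    simp
    ring

/-- A graph between different classes with bounded degrees and a prescribed number of edges. -/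
theorem exists_cross (Q : Finset V) (κ : V → ℓ) (cap : V → ℕ)
    (hcap : ∀ u ∈ Q, ∀ v ∈ Q, κ u = κ v → cap u = cap v)
    (hlt : ∀ u ∈ Q, ∀ v ∈ Q, κ u ≠ κ v → cap u < (Q.filter fun w => κ w = κ v).card)
    (τ : ℕ) (hdom0 : 2 * τ ≤ ∑ v ∈ Q, cap v)
    (hdom : ∀ m, ∑ v ∈ Q.filter (fun w => κ w = m), cap v + 2 * τ ≤ ∑ v ∈ Q, cap v) :
    ∃ (Y : SimpleGraph V) (_ : DecidableRel Y.Adj),
      (∀ u v, Y.Adj u v → u ∈ Q ∧ v ∈ Q ∧ κ u ≠ κ v) ∧ (∀ v, Y.degree v ≤ cap v) ∧
      ∑ v, Y.degree v = 2 * τ := by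
  classical
  have key : ∀ j : ℕ, j ≤ τ → ∃ f : Sym2 V → ℤ, Adm Q κ cap f ∧ ∑ u, row f u = 2 * j := by
    intro j
    induction j with
    | zero =>
      intro _
      refine ⟨fun _ => 0, ⟨fun _ => Or.inl rfl, ?_, ?_⟩, ?_⟩
      · intro u v h
        exact absurd h (by norm_num)
      · intro u
        simp [row]
      · simp [row]
    | succ j ih =>
      intro hj
      obtain ⟨f, hf, hs⟩ := ih (by omega)
      obtain ⟨f', hf', hs'⟩ := hf.step hcap hlt τ hdom0 hdom (by rw [hs]; push_cast; omega)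
      refine ⟨f', hf', ?_⟩
      rw [hs', hs]
      push_cast
      ring
  obtain ⟨f, hf, hs⟩ := key τ le_rfl
  let Y : SimpleGraph V :=
    { Adj := fun u v => f s(u, v) = 1
      symm := ⟨fun u v h => by rw [Sym2.eq_swap]; exact h⟩
      loopless := ⟨fun u h => (hf.sup u u h).2.2 rfl⟩ }
  have hdec : DecidableRel Y.Adj := Classical.decRel _
  have hdeg : ∀ v, (Y.degree v : ℤ) = row f v := by
    intro v
    rw [hf.row_eq v, ← card_neighborFinset_eq_degree]
    congr 2
    ext w
    simp [Y]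
  refine ⟨Y, hdec, fun u v h => hf.sup u v h, ?_, ?_⟩
  · intro v
    have := hf.le v
    rw [← hdeg v] at this
    exact_mod_cast this
  · have : ((∑ v, Y.degree v : ℕ) : ℤ) = ((2 * τ : ℕ) : ℤ) := by
      push_cast
      rw [Finset.sum_congr rfl (fun v _ => hdeg v), hs]
    exact_mod_cast this

end Pool.Agent.NH75.MP
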