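import Mathlib

set_option autoImplicit false

/-! Small tools about graphs with prescribed numbers of edges and bounded degrees. -/

namespace Pool.Agent.NH75.MP

open Finset SimpleGraph

section sub

variable {V : Type} [Fintype V] [DecidableEq V]

omit [DecidableEq V] in
/-- A subgraph with a prescribed number of edges. -/
theorem exists_sub (X0 : SimpleGraph V) [DecidableRel X0.Adj] (N : ℕ)
    (h : 2 * N ≤ ∑ v, X0.degree v) :
    ∃ (X : SimpleGraph V) (_ : DecidableRel X.Adj), X ≤ X0 ∧ ∑ v, X.degree v = 2 * N := by
  classical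
  rw [SimpleGraph.sum_degrees_eq_twice_card_edges] at h
  obtain ⟨T, hT, hc⟩ := Finset.exists_subset_card_eq (s := X0.edgeFinset) (n := N) (by omega)
  have hmem : ∀ e, e ∈ (SimpleGraph.fromEdgeSet (T : Set (Sym2 V))).edgeSet ↔ e ∈ T := by
    intro e
    rw [edgeSet_fromEdgeSet]
    constructor
    · intro h
      exact h.1
    · intro h
      refine ⟨h, ?_⟩
      have := hT h
      rw [mem_edgeFinset] at this
      exact X0.not_isDiag_of_mem_edgeSet this
  obtain ⟨X, hX⟩ : ∃ X : SimpleGraph V, ∀ e, e ∈ X.edgeSet ↔ e ∈ T := ⟨_, hmem⟩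
  have hdec : DecidableRel X.Adj := Classical.decRel _
  refine ⟨X, hdec, ?_, ?_⟩
  · intro u v huv
    have := hT ((hX s(u, v)).1 huv)
    rw [mem_edgeFinset] at this
    exact this
  · rw [SimpleGraph.sum_degrees_eq_twice_card_edges]
    have : X.edgeFinset = T := by
      ext e
      rw [mem_edgeFinset, hX]
    rw [this, hc]

/-- cyclic difference -/
def dl (β r i : ℕ) : ℕ := if i ≤ r then r - i else r + β - i

theorem dl_lt {β r i : ℕ} (_ : r < β) (_ : i < β) : dl β r i < β := by
  unfold dl; split_ifs <;> omega

theorem dl_inj1 {β r r' i : ℕ} (hr : r < β) (hr' : r' < β) (hi : i < β)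
    (h : dl β r i = dl β r' i) : r = r' := by
  unfold dl at h; split_ifs at h <;> omega

theorem dl_inj2 {β r i i' : ℕ} (_ : r < β) (hi : i < β) (hi' : i' < β)
    (h : dl β r i = dl β r i') : i = i' := by
  unfold dl at h; split_ifs at h <;> omega

/-- A bipartite graph with a prescribed number of edges and bounded degrees. -/
theorem exists_bip (A B : Finset V) (hAB : Disjoint A B) (hc : A.card ≤ B.card) (e N : ℕ)
    (hN : N ≤ A.card * min e B.card) :
    ∃ (X : SimpleGraph V) (_ : DecidableRel X.Adj),
      (∀ u v, X.Adj u v → (u ∈ A ∧ v ∈ B) ∨ (u ∈ B ∧ v ∈ A)) ∧ (∀ v, X.degree v ≤ e) ∧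
      ∑ v, X.degree v = 2 * N := by
  classical
  set β := B.card with hβ
  obtain ⟨fA, hfA1, hfA2⟩ : ∃ f : V → ℕ, (∀ v ∈ A, f v < β) ∧ Set.InjOn f A := by
    refine ⟨fun v => if h : v ∈ A then (A.equivFin ⟨v, h⟩).val else 0, ?_, ?_⟩
    · intro v hv
      simp only [dif_pos hv]
      exact lt_of_lt_of_le (Fin.is_lt _) hc
    · intro u hu v hv h
      have hu' : u ∈ A := hu
      have hv' : v ∈ A := hv
      simp only [dif_pos hu', dif_pos hv'] at h
      have := A.equivFin.injective (Fin.ext h)
      exact congrArg Subtype.val this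
  obtain ⟨fB, hfB1, hfB2⟩ : ∃ f : V → ℕ, (∀ v ∈ B, f v < β) ∧ Set.InjOn f B := by
    refine ⟨fun v => if h : v ∈ B then (B.equivFin ⟨v, h⟩).val else 0, ?_, ?_⟩
    · intro v hv
      simp only [dif_pos hv]
      exact Fin.is_lt _
    · intro u hu v hv h
      have hu' : u ∈ B := hu
      have hv' : v ∈ B := hv
      simp only [dif_pos hu', dif_pos hv'] at h
      have := B.equivFin.injective (Fin.ext h)
      exact congrArg Subtype.val this
  let R : V → V → Prop := fun u v => u ∈ A ∧ v ∈ B ∧ dl β (fB v) (fA u) < e
  let X0 : SimpleGraph V :=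
    { Adj := fun u v => R u v ∨ R v u
      symm := ⟨fun u v h => h.symm⟩
      loopless := ⟨by
        intro u h
        have : u ∈ A ∧ u ∈ B := by
          rcases h with h | h
          · exact ⟨h.1, h.2.1⟩
          · exact ⟨h.1, h.2.1⟩
        exact Finset.disjoint_left.1 hAB this.1 this.2⟩ }
  -- degrees
  have degA : ∀ u ∈ A, X0.degree u = min e β := by
    intro u hu
    have huB : u ∉ B := Finset.disjoint_left.1 hAB hu
    have e1 : X0.neighborFinset u = B.filter (fun v => dl β (fB v) (fA u) < e) := by
      ext v
      rw [mem_neighborFinset, mem_filter]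
      constructor
      · rintro (h | h)
        · exact ⟨h.2.1, h.2.2⟩
        · exact absurd h.2.1 huB
      · intro h
        exact Or.inl ⟨hu, h.1, h.2⟩
    have himg : B.image (fun v => dl β (fB v) (fA u)) = range β := by
      apply Finset.eq_of_subset_of_card_le
      · intro r hr
        rw [mem_image] at hr
        obtain ⟨v, hv, rfl⟩ := hr
        exact mem_range.2 (dl_lt (hfB1 v hv) (hfA1 u hu))
      · rw [card_range, Finset.card_image_of_injOn]
        intro v hv v' hv' h
        exact hfB2 hv hv' (dl_inj1 (hfB1 v hv) (hfB1 v' hv') (hfA1 u hu) h)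
    have hinj : Set.InjOn (fun v => dl β (fB v) (fA u)) (B : Set V) := by
      intro v hv v' hv' h
      exact hfB2 hv hv' (dl_inj1 (hfB1 v hv) (hfB1 v' hv') (hfA1 u hu) h)
    rw [← card_neighborFinset_eq_degree, e1]
    have e2 : (B.filter (fun v => dl β (fB v) (fA u) < e)).card =
        ((B.image (fun v => dl β (fB v) (fA u))).filter (fun r => r < e)).card := by
      rw [Finset.filter_image, Finset.card_image_of_injOn]
      exact hinj.mono (by intro x hx; exact (mem_filter.1 hx).1)
    rw [e2, himg]
    have e3 : (range β).filter (fun r => r < e) = range (min e β) := by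
      ext r
      simp only [mem_filter, mem_range]
      omega
    rw [e3, card_range]
  have degB : ∀ v ∈ B, X0.degree v ≤ e := by
    intro v hv
    have hvA : v ∉ A := fun h => Finset.disjoint_left.1 hAB h hv
    have e1 : X0.neighborFinset v = A.filter (fun u => dl β (fB v) (fA u) < e) := by
      ext u
      rw [mem_neighborFinset, mem_filter]
      constructor
      · rintro (h | h)
        · exact absurd h.1 hvA
        · exact ⟨h.1, h.2.2⟩
      · intro h
        exact Or.inr ⟨h.1, hv, h.2⟩
    rw [← card_neighborFinset_eq_degree, e1]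
    calc (A.filter (fun u => dl β (fB v) (fA u) < e)).card
        = ((A.filter (fun u => dl β (fB v) (fA u) < e)).image
            (fun u => dl β (fB v) (fA u))).card := by
          rw [Finset.card_image_of_injOn]
          intro u hu u' hu' h
          have h1 := (mem_filter.1 hu).1
          have h2 := (mem_filter.1 hu').1
          exact hfA2 h1 h2 (dl_inj2 (hfB1 v hv) (hfA1 u h1) (hfA1 u' h2) h)
      _ ≤ (range e).card := by
          apply card_le_card
          intro r hr
          rw [mem_image] at hr
          obtain ⟨u, hu, rfl⟩ := hr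
          exact mem_range.2 (mem_filter.1 hu).2
      _ = e := card_range e
  have degO : ∀ v, v ∉ A → v ∉ B → X0.degree v = 0 := by
    intro v h1 h2
    rw [← card_neighborFinset_eq_degree, Finset.card_eq_zero]
    ext u
    simp only [mem_neighborFinset, notMem_empty, iff_false]
    rintro (h | h)
    · exact h1 h.1
    · exact h2 h.2.1
  have hdeg : ∀ v, X0.degree v ≤ e := by
    intro v
    by_cases h1 : v ∈ A
    · rw [degA v h1]; exact min_le_left _ _
    · by_cases h2 : v ∈ B
      · exact degB v h2
      · rw [degO v h1 h2]; exact Nat.zero_le _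
  have hsumA : ∑ v ∈ A, X0.degree v = A.card * min e β := by
    rw [Finset.sum_congr rfl degA, Finset.sum_const, smul_eq_mul]
  have hsumB : ∑ v ∈ B, X0.degree v = ∑ v ∈ A, X0.degree v := by
    have h1 : ∀ u ∈ A, X0.degree u = (B.filter (fun v => R u v)).card := by
      intro u hu
      rw [← card_neighborFinset_eq_degree]
      congr 1
      ext v
      rw [mem_neighborFinset, mem_filter]
      constructor
      · rintro (h | h)
        · exact ⟨h.2.1, h⟩
        · exact absurd h.2.1 (Finset.disjoint_left.1 hAB hu)
      · intro h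
        exact Or.inl h.2
    have h2 : ∀ v ∈ B, X0.degree v = (A.filter (fun u => R u v)).card := by
      intro v hv
      rw [← card_neighborFinset_eq_degree]
      congr 1
      ext u
      rw [mem_neighborFinset, mem_filter]
      constructor
      · rintro (h | h)
        · exact absurd h.1 (fun h' => Finset.disjoint_left.1 hAB h' hv)
        · exact ⟨h.1, h⟩
      · intro h
        exact Or.inr h.2
    rw [Finset.sum_congr rfl h1, Finset.sum_congr rfl h2]
    exact (Finset.sum_card_bipartiteAbove_eq_sum_card_bipartiteBelow R).symm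
  have htot : 2 * N ≤ ∑ v, X0.degree v := by
    have h1 : ∑ v ∈ A ∪ B, X0.degree v ≤ ∑ v, X0.degree v :=
      Finset.sum_le_sum_of_subset (subset_univ _)
    rw [Finset.sum_union hAB, hsumB, hsumA] at h1
    omega
  obtain ⟨X, hd, hX, hs⟩ := exists_sub X0 N htot
  refine ⟨X, hd, ?_, ?_, hs⟩
  · intro u v h
    rcases hX h with h | h
    · exact Or.inl ⟨h.1, h.2.1⟩
    · exact Or.inr ⟨h.2.1, h.1⟩
  · intro v
    refine le_trans ?_ (hdeg v)
    rw [← card_neighborFinset_eq_degree, ← card_neighborFinset_eq_degree]
    apply card_le_card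
    intro u hu
    rw [mem_neighborFinset] at hu ⊢
    exact hX hu

end sub

section pm

/-- A fixed point free involution between different classes. -/
theorem exists_pm {N : Type} [Fintype N] [DecidableEq N] (γ : N → ℕ)
    (hev : Even (Fintype.card N))
    (hhalf : ∀ m, 2 * (univ.filter fun x => γ x = m).card ≤ Fintype.card N) :
    ∃ f : N → N, (∀ x, f (f x) = x) ∧ ∀ x, γ (f x) ≠ γ x := by
  classical
  obtain ⟨h, hh⟩ := hev
  let e : N ≃ Fin (h + h) := Fintype.equivFinOfCardEq hh
  let g : Fin (h + h) → ℕ := fun i => γ (e.symm i)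
  let σ := Tuple.sort g
  have hmono : Monotone (g ∘ σ) := Tuple.monotone_sort g
  let τ : Fin (h + h) → Fin (h + h) := fun i =>
    if hi : i.val < h then ⟨i.val + h, by omega⟩ else ⟨i.val - h, by omega⟩
  have hτv : ∀ i : Fin (h + h), (τ i).val = if i.val < h then i.val + h else i.val - h := by
    intro i
    by_cases hi : i.val < h
    · rw [if_pos hi]
      have h1 : τ i = ⟨i.val + h, by omega⟩ := dif_pos hi
      rw [h1]
    · rw [if_neg hi]
      have h1 : τ i = ⟨i.val - h, by omega⟩ := dif_neg hi
      rw [h1]
  have hτ : ∀ i, τ (τ i) = i := by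
    intro i
    apply Fin.ext
    rw [hτv, hτv]
    have := i.2
    split_ifs <;> omega
  -- two positions at distance `h` have different labels
  have hfar : ∀ i : Fin (h + h), ∀ hi : i.val < h,
      (g ∘ σ) i ≠ (g ∘ σ) ⟨i.val + h, by omega⟩ := by
    intro i hi heq
    have h1 : ∀ t : Fin (h + 1), (g ∘ σ) ⟨i.val + t.val, by omega⟩ = (g ∘ σ) i := by
      intro t
      apply le_antisymm
      · rw [heq]
        apply hmono
        rw [Fin.le_def]
        simp only
        omega
      · apply hmono
        rw [Fin.le_def]
        simp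
    have h2 : h + 1 ≤ (univ.filter fun x => γ x = (g ∘ σ) i).card := by
      have h3 : Fintype.card (Fin (h + 1)) ≤
          (univ.filter fun x => γ x = (g ∘ σ) i).card := by
        rw [← Finset.card_univ]
        apply Finset.card_le_card_of_injOn
          (fun t => e.symm (σ ⟨i.val + t.val, by omega⟩))
        · intro t _
          rw [Finset.mem_coe, mem_filter]
          exact ⟨mem_univ _, h1 t⟩
        · intro t _ t' _ htt
          have h4 := σ.injective (e.symm.injective htt)
          rw [Fin.mk.injEq] at h4
          exact Fin.ext (by omega)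
      rwa [Fintype.card_fin] at h3
    have h5 := hhalf ((g ∘ σ) i)
    rw [hh] at h5
    omega
  refine ⟨fun x => e.symm (σ (τ (σ.symm (e x)))), ?_, ?_⟩
  · intro x
    simp [hτ]
  · intro x heq
    obtain ⟨i, hi⟩ : ∃ i, x = e.symm (σ i) := ⟨σ.symm (e x), by simp⟩
    subst hi
    simp only [Equiv.apply_symm_apply, Equiv.symm_apply_apply] at heq
    by_cases hi : i.val < h
    · have h1 : τ i = ⟨i.val + h, by omega⟩ := dif_pos hi
      rw [h1] at heq
      exact hfar i hi heq.symm
    · have h1 : τ i = ⟨i.val - h, by omega⟩ := dif_neg hi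
      have h2 : (τ i).val < h := by rw [h1]; simp; omega
      have h3 := hfar (τ i) h2
      apply h3
      have h4 : (⟨(τ i).val + h, by omega⟩ : Fin (h + h)) = i := by
        apply Fin.ext
        show (τ i).val + h = i.val
        rw [hτv, if_neg hi]
        omega
      rw [h4]
      exact heq

end pm

end Pool.Agent.NH75.MP
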