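import Pool.Agent.NH75.MP.Gr
import Pool.Agent.NH75.MP.Tools
import Pool.Agent.NH75.MP.Switch

set_option autoImplicit false
set_option linter.unusedSectionVars false

/-! The cases of the construction. -/

namespace Pool.Agent.NH75.MP

open Finset SimpleGraph

variable {ι ℓ : Type} [Fintype ι] [DecidableEq ι] [DecidableEq ℓ]

/-- the excess of `S` over the classes outside `S` -/
def DD (a : ι → ℕ) (c : ℕ) (S : Finset ι) (κ : ι → ℓ) : ℤ :=
  (sz a S : ℤ) * ((c : ℤ) - sz a S) -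
    ∑ i ∈ Sᶜ, (a i : ℤ) * ((c : ℤ) - sz a (cl S κ (κ i)))

theorem mem_cl {S : Finset ι} {κ : ι → ℓ} {m : ℓ} {i : ι} :
    i ∈ cl S κ m ↔ i ∉ S ∧ κ i = m := by
  simp [cl]

theorem sz_pos (a : ι → ℕ) {T : Finset ι} {i : ι} (hi : i ∈ T) :
    a i ≤ sz a T := Finset.single_le_sum (fun _ _ => Nat.zero_le _) hi

theorem sum_symm_parity (f : ι → ι → ℤ) (hf : ∀ i j, f i j = f j i) (T : Finset ι) :
    ∃ r : ℤ, ∑ i ∈ T, ∑ j ∈ T, f i j = ∑ i ∈ T, f i i + 2 * r := by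
  induction T using Finset.induction_on with
  | empty => exact ⟨0, by simp⟩
  | insert x T hx ih =>
    obtain ⟨r, hr⟩ := ih
    refine ⟨r + ∑ j ∈ T, f x j, ?_⟩
    rw [Finset.sum_insert hx, Finset.sum_insert hx, Finset.sum_insert hx]
    have h1 : ∑ i ∈ T, ∑ j ∈ insert x T, f i j = ∑ i ∈ T, f x i + ∑ i ∈ T, ∑ j ∈ T, f i j := by
      rw [← Finset.sum_add_distrib]
      apply Finset.sum_congr rfl
      intro i _
      rw [Finset.sum_insert hx, hf i x]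
    rw [h1, hr]
    ring

theorem sq_parity (x : ℤ) : ∃ r : ℤ, x * x = x + 2 * r := by
  rcases Int.even_or_odd x with ⟨t, rfl⟩ | ⟨t, rfl⟩
  · exact ⟨2 * t * t - t, by ring⟩
  · exact ⟨2 * t * t + t, by ring⟩

theorem DD_even (a : ι → ℕ) (c : ℕ) (S : Finset ι) (κ : ι → ℓ) (hev : Even (sz a univ)) :
    ∃ r : ℤ, DD a c S κ = 2 * r := by
  have hsplit : (sz a S : ℤ) + sz a Sᶜ = sz a univ := by
    exact_mod_cast Finset.sum_add_sum_compl S a
  have hcl : ∀ i ∈ Sᶜ, (sz a (cl S κ (κ i)) : ℤ) = ∑ j ∈ Sᶜ, if κ j = κ i then (a j : ℤ) else 0 := by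
    intro i _
    rw [← Finset.sum_filter, sz]
    push_cast
    apply Finset.sum_congr
    · ext j
      simp [cl]
    · intro _ _; rfl
  have hP : ∑ i ∈ Sᶜ, (a i : ℤ) * sz a (cl S κ (κ i)) =
      ∑ i ∈ Sᶜ, ∑ j ∈ Sᶜ, if κ j = κ i then (a i : ℤ) * a j else 0 := by
    apply Finset.sum_congr rfl
    intro i hi
    rw [hcl i hi, Finset.mul_sum]
    apply Finset.sum_congr rfl
    intro j _
    by_cases h : κ j = κ i <;> simp [h]
  obtain ⟨r1, hr1⟩ := sum_symm_parity (fun i j => if κ j = κ i then (a i : ℤ) * a j else 0)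
    (by
      intro i j
      by_cases h : κ j = κ i
      · simp [h, mul_comm]
      · simp [h, Ne.symm h]) Sᶜ
  have hsq : ∃ r2 : ℤ, ∑ i ∈ Sᶜ, (if κ i = κ i then (a i : ℤ) * a i else 0) =
      (sz a Sᶜ : ℤ) + 2 * r2 := by
    choose g hg using fun i : ι => sq_parity (a i : ℤ)
    refine ⟨∑ i ∈ Sᶜ, g i, ?_⟩
    rw [sz, Finset.mul_sum]
    push_cast
    rw [← Finset.sum_add_distrib]
    apply Finset.sum_congr rfl
    intro i _
    rw [if_pos rfl]
    exact hg i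
  obtain ⟨r2, hr2⟩ := hsq
  obtain ⟨r3, hr3⟩ := sq_parity (sz a S : ℤ)
  obtain ⟨h, hh⟩ := hev
  have hh' : (sz a univ : ℤ) = 2 * h := by rw [hh]; push_cast; ring
  have hsum : ∑ i ∈ Sᶜ, (a i : ℤ) * ((c : ℤ) - sz a (cl S κ (κ i))) =
      (c : ℤ) * sz a Sᶜ - ((sz a Sᶜ : ℤ) + 2 * r2 + 2 * r1) := by
    have e1 : ∑ i ∈ Sᶜ, (a i : ℤ) * ((c : ℤ) - sz a (cl S κ (κ i))) =
        (c : ℤ) * ∑ i ∈ Sᶜ, (a i : ℤ) - ∑ i ∈ Sᶜ, (a i : ℤ) * sz a (cl S κ (κ i)) := by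
      rw [Finset.mul_sum, ← Finset.sum_sub_distrib]
      apply Finset.sum_congr rfl
      intro i _
      ring
    have e2 : (sz a Sᶜ : ℤ) = ∑ i ∈ Sᶜ, (a i : ℤ) := by rw [sz]; push_cast; rfl
    rw [e1, hP, hr1, hr2, ← e2]
  refine ⟨(c : ℤ) * (sz a S : ℤ) - (c - 1) * h - r3 - sz a S + r2 + r1, ?_⟩
  have hx : (sz a Sᶜ : ℤ) = 2 * h - sz a S := by rw [← hh', ← hsplit]; ring
  rw [DD, hsum, hx]
  linear_combination (-1 : ℤ) * hr3

/-- the two basic forms of the graph lemma -/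
theorem lemX (a : ι → ℕ) (S : Finset ι) (κ : ι → ℓ) (c k : ℕ) (hn : sz a univ = k + c)
    (hev : Even (sz a univ)) (X : SimpleGraph (Σ i, Fin (a i))) [DecidableRel X.Adj]
    (hX : ∀ u v, X.Adj u v → u.1 ∉ S ∧ v.1 ∉ S ∧ κ u.1 = κ v.1 ∧ u.1 ≠ v.1)
    (h1 : ∀ v : (Σ i, Fin (a i)), v.1 ∉ S →
      X.degree v + c + 1 ≤ sz a S + sz a (cl S κ (κ v.1)))
    (h2 : ∀ v : (Σ i, Fin (a i)), v.1 ∉ S → sz a (cl S κ (κ v.1)) ≤ c + X.degree v)
    (hsum : ∑ v, (X.degree v : ℤ) = DD a c S κ) : PMs a k := by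
  classical
  have hbot : ∀ v : (Σ i, Fin (a i)), (⊥ : SimpleGraph (Σ i, Fin (a i))).degree v = 0 := by
    intro v
    simp
  refine lemG a S κ c k hn hev X ⊥ hX (fun u v h => h.elim) ?_ ?_ ?_
  · intro v hv
    rw [hbot]
    exact h1 v hv
  · intro v hv
    rw [hbot]
    exact h2 v hv
  · rw [hsum, DD]
    simp only [hbot]
    simp

theorem lemY (a : ι → ℕ) (S : Finset ι) (κ : ι → ℓ) (c k : ℕ) (hn : sz a univ = k + c)
    (hev : Even (sz a univ)) (Y : SimpleGraph (Σ i, Fin (a i))) [DecidableRel Y.Adj]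
    (hY : ∀ u v, Y.Adj u v → u.1 ∉ S ∧ v.1 ∉ S ∧ κ u.1 ≠ κ v.1)
    (h1 : ∀ i, i ∉ S → c + 1 ≤ sz a S + sz a (cl S κ (κ i)))
    (h2 : ∀ v : (Σ i, Fin (a i)), v.1 ∉ S → sz a (cl S κ (κ v.1)) + Y.degree v ≤ c)
    (hsum : ∑ v, (Y.degree v : ℤ) = - DD a c S κ) : PMs a k := by
  classical
  have hbot : ∀ v : (Σ i, Fin (a i)), (⊥ : SimpleGraph (Σ i, Fin (a i))).degree v = 0 := by
    intro v
    simp
  refine lemG a S κ c k hn hev ⊥ Y (fun u v h => h.elim) hY ?_ ?_ ?_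
  · intro v hv
    rw [hbot]
    have := h1 v.1 hv
    omega
  · intro v hv
    rw [hbot]
    exact h2 v hv
  · rw [hsum, DD]
    simp only [hbot]
    simp

theorem sum_deg_cast {V : Type} [Fintype V] (X : SimpleGraph V) [DecidableRel X.Adj] (N : ℕ)
    (h : ∑ v, X.degree v = 2 * N) : ∑ v, (X.degree v : ℤ) = 2 * (N : ℤ) := by
  have : ((∑ v, X.degree v : ℕ) : ℤ) = ((2 * N : ℕ) : ℤ) := by rw [h]
  push_cast at this
  exact this

/-- the vertices of a set of parts -/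
def vs (a : ι → ℕ) (T : Finset ι) : Finset (Σ i, Fin (a i)) := univ.filter fun v => v.1 ∈ T

theorem mem_vs {a : ι → ℕ} {T : Finset ι} {v : Σ i, Fin (a i)} : v ∈ vs a T ↔ v.1 ∈ T := by
  simp [vs]

theorem card_vs (a : ι → ℕ) (T : Finset ι) : (vs a T).card = sz a T := by
  rw [vs, card_filter_fst a (fun i => i ∈ T)]
  congr 1
  ext i
  simp

theorem vs_disj {a : ι → ℕ} {T T' : Finset ι} (h : Disjoint T T') : Disjoint (vs a T) (vs a T') := by
  rw [Finset.disjoint_left] at h ⊢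
  intro v hv hv'
  rw [mem_vs] at hv hv'
  exact h hv hv'

/-- bipartite graph between two disjoint sets of parts, in any order -/
theorem bip (a : ι → ℕ) (T T' : Finset ι) (hd : Disjoint T T') (e N : ℕ)
    (hN : N ≤ min (sz a T) (sz a T') * min e (max (sz a T) (sz a T'))) :
    ∃ (X : SimpleGraph (Σ i, Fin (a i))) (_ : DecidableRel X.Adj),
      (∀ u v, X.Adj u v → (u.1 ∈ T ∧ v.1 ∈ T') ∨ (u.1 ∈ T' ∧ v.1 ∈ T)) ∧
      (∀ v, X.degree v ≤ e) ∧ ∑ v, X.degree v = 2 * N := by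
  rcases le_total (sz a T) (sz a T') with h | h
  · rw [min_eq_left h, max_eq_right h] at hN
    obtain ⟨X, hdec, h1, h2, h3⟩ := exists_bip (vs a T) (vs a T') (vs_disj hd)
      (by rw [card_vs, card_vs]; exact h) e N (by rw [card_vs, card_vs]; exact hN)
    refine ⟨X, hdec, ?_, h2, h3⟩
    intro u v huv
    have := h1 u v huv
    simpa [mem_vs] using this
  · rw [min_eq_right h, max_eq_left h] at hN
    obtain ⟨X, hdec, h1, h2, h3⟩ := exists_bip (vs a T') (vs a T) (vs_disj hd.symm)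
      (by rw [card_vs, card_vs]; exact h) e N (by rw [card_vs, card_vs]; exact hN)
    refine ⟨X, hdec, ?_, h2, h3⟩
    intro u v huv
    have := h1 u v huv
    rw [mem_vs, mem_vs, mem_vs, mem_vs] at this
    exact this.symm

theorem degree_zero_of {V : Type} [Fintype V] (X : SimpleGraph V) [DecidableRel X.Adj] (v : V)
    (h : ∀ u, ¬ X.Adj v u) : X.degree v = 0 := by
  rw [← card_neighborFinset_eq_degree, Finset.card_eq_zero]
  ext u
  simp only [mem_neighborFinset, notMem_empty, iff_false]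
  exact h u

/-- Case 1: every part outside `S` is large. -/
theorem caseMax (a : ι → ℕ) (S : Finset ι) (κ : ι → ℓ) (c k : ℕ) (hn : sz a univ = k + c)
    (hev : Even (sz a univ))
    (hstar : (sz a S : ℤ) * ((c : ℤ) - sz a S) ≤ ∑ i ∈ Sᶜ, (a i : ℤ) * ((c : ℤ) - a i))
    (hb : ∀ i, i ∉ S → sz a (cl S κ (κ i)) ≤ c) (hD : 0 ≤ DD a c S κ)
    (hmax : ∀ i, i ∉ S → c + 1 ≤ sz a S + a i) : PMs a k := by
  classical
  obtain ⟨r, hr⟩ := DD_even a c S κ hev
  let X0 : SimpleGraph (Σ i, Fin (a i)) :=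
    { Adj := fun u v => u.1 ∉ S ∧ v.1 ∉ S ∧ κ u.1 = κ v.1 ∧ u.1 ≠ v.1
      symm := ⟨fun u v h => ⟨h.2.1, h.1, h.2.2.1.symm, h.2.2.2.symm⟩⟩
      loopless := ⟨fun u h => h.2.2.2 rfl⟩ }
  have hdeg : ∀ v : (Σ i, Fin (a i)), v.1 ∉ S →
      X0.degree v + a v.1 = sz a (cl S κ (κ v.1)) := by
    intro v hv
    have e1 : X0.neighborFinset v = vs a ((cl S κ (κ v.1)).erase v.1) := by
      ext u
      rw [mem_neighborFinset, mem_vs, mem_erase, mem_cl]
      constructor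
      · rintro ⟨_, h2, h3, h4⟩
        exact ⟨h4.symm, h2, h3.symm⟩
      · rintro ⟨h1, h2, h3⟩
        exact ⟨hv, h2, h3.symm, h1.symm⟩
    rw [← card_neighborFinset_eq_degree, e1, card_vs]
    exact Finset.sum_erase_add _ _ (mem_cl.2 ⟨hv, rfl⟩)
  have hsumX0 : ∑ v, (X0.degree v : ℤ) =
      ∑ i ∈ Sᶜ, (a i : ℤ) * ((sz a (cl S κ (κ i)) : ℤ) - a i) := by
    have e1 : ∀ v : (Σ i, Fin (a i)), (X0.degree v : ℤ) =
        if v.1 ∉ S then ((sz a (cl S κ (κ v.1)) : ℤ) - a v.1) else 0 := by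
      intro v
      by_cases hv : v.1 ∈ S
      · rw [if_neg (not_not.2 hv), degree_zero_of X0 v (fun u h => h.1 hv)]
        rfl
      · rw [if_pos hv]
        have := hdeg v hv
        omega
    rw [Finset.sum_congr rfl (fun v _ => e1 v), Fintype.sum_sigma]
    simp only [Finset.sum_const, card_univ, Fintype.card_fin, nsmul_eq_mul]
    rw [← Finset.sum_filter_add_sum_filter_not univ (fun i => i ∉ S)]
    rw [Finset.sum_eq_zero (s := univ.filter fun i => ¬ i ∉ S)]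
    · rw [add_zero]
      have : univ.filter (fun i => i ∉ S) = Sᶜ := by ext i; simp
      rw [this]
      apply Finset.sum_congr rfl
      intro i hi
      rw [if_pos (by simpa using hi)]
    · intro i hi
      rw [mem_filter] at hi
      rw [if_neg hi.2, mul_zero]
  have hle : DD a c S κ ≤ ∑ v, (X0.degree v : ℤ) := by
    rw [hsumX0, DD]
    have e1 : ∑ i ∈ Sᶜ, (a i : ℤ) * ((sz a (cl S κ (κ i)) : ℤ) - a i) =
        ∑ i ∈ Sᶜ, (a i : ℤ) * ((c : ℤ) - a i) -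
          ∑ i ∈ Sᶜ, (a i : ℤ) * ((c : ℤ) - sz a (cl S κ (κ i))) := by
      rw [← Finset.sum_sub_distrib]
      apply Finset.sum_congr rfl
      intro i _
      ring
    rw [e1]
    linarith
  obtain ⟨N, hN⟩ : ∃ N : ℕ, (N : ℤ) = r := ⟨r.toNat, by omega⟩
  obtain ⟨X, hdec, hXle, hXs⟩ := exists_sub X0 N (by
    have : ((2 * N : ℕ) : ℤ) ≤ ((∑ v, X0.degree v : ℕ) : ℤ) := by
      push_cast
      rw [hN, ← hr]
      exact hle
    exact_mod_cast this)
  have hdle : ∀ v, X.degree v ≤ X0.degree v := by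
    intro v
    rw [← card_neighborFinset_eq_degree, ← card_neighborFinset_eq_degree]
    apply card_le_card
    intro u hu
    rw [mem_neighborFinset] at hu ⊢
    exact hXle hu
  refine lemX a S κ c k hn hev X (fun u v h => hXle h) ?_ ?_ ?_
  · intro v hv
    have e1 := hdeg v hv
    have e2 := hdle v
    have e3 := hmax v.1 hv
    omega
  · intro v hv
    have := hb v.1 hv
    omega
  · rw [sum_deg_cast X N hXs, hN, hr]

end Pool.Agent.NH75.MP
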