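import Pool.Agent.NH75.MP.Cases

set_option autoImplicit false
set_option linter.unusedSectionVars false

/-! The cases of the construction, part 2. -/

namespace Pool.Agent.NH75.MP

open Finset SimpleGraph

variable {ι : Type} [Fintype ι] [DecidableEq ι]

theorem DD_split (a : ι → ℕ) (c : ℕ) (S : Finset ι) (κ : ι → ι) (T : Finset ι) (hT : T ⊆ Sᶜ)
    (B : ℕ) (hB : ∀ i ∈ T, sz a (cl S κ (κ i)) = B) :
    DD a c S κ = (sz a S : ℤ) * ((c : ℤ) - sz a S) - (sz a T : ℤ) * ((c : ℤ) - B) -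
      ∑ i ∈ Sᶜ \ T, (a i : ℤ) * ((c : ℤ) - sz a (cl S κ (κ i))) := by
  rw [DD, ← Finset.sum_sdiff hT]
  have h1 : ∑ i ∈ T, (a i : ℤ) * ((c : ℤ) - sz a (cl S κ (κ i))) =
      (sz a T : ℤ) * ((c : ℤ) - B) := by
    rw [Finset.sum_congr rfl (fun i hi => by rw [hB i hi]), ← Finset.sum_mul, sz]
    push_cast
    rfl
  rw [h1]
  ring

/-- A configuration: `S` dominates the classes outside `S`. -/
structure Conf (a : ι → ℕ) (c : ℕ) (S : Finset ι) (κ : ι → ι) : Prop where
  hs : sz a S ≤ c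
  hb : ∀ i, i ∉ S → sz a (cl S κ (κ i)) ≤ c
  hsb : ∀ i, i ∉ S → c + 1 ≤ sz a S + sz a (cl S κ (κ i))
  hD : 0 ≤ DD a c S κ

section cross

variable {a : ι → ℕ} {c k : ℕ} {S : Finset ι} {κ : ι → ι} {j : ι}

theorem sz_erase {T : Finset ι} (hj : j ∈ T) : sz a (T.erase j) + a j = sz a T :=
  Finset.sum_erase_add _ _ hj

theorem sz_insert {T : Finset ι} (hj : j ∉ T) : sz a (insert j T) = a j + sz a T :=
  Finset.sum_insert hj

theorem b'_ge (hC : Conf a c S κ) (hj : j ∉ S) (hjs : sz a S + a j ≤ c)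
    (hmin : ∀ i ∈ cl S κ (κ j), a j ≤ a i) :
    a j ≤ sz a ((cl S κ (κ j)).erase j) := by
  have hjT : j ∈ cl S κ (κ j) := mem_cl.2 ⟨hj, rfl⟩
  have h1 := hC.hsb j hj
  have h2 := sz_erase (a := a) hjT
  have h3 : ((cl S κ (κ j)).erase j).Nonempty := by
    rw [Finset.nonempty_iff_ne_empty]
    intro h
    rw [h] at h2
    simp only [sz, Finset.sum_empty] at h2
    simp only [sz] at h1 hjs
    omega
  obtain ⟨i, hi⟩ := h3
  exact (hmin i (mem_of_mem_erase hi)).trans (sz_pos a hi)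

/-- values of the excess -/
theorem DD_S (_ : j ∉ S) :
    DD a c S κ = (sz a S : ℤ) * ((c : ℤ) - sz a S) -
      (sz a (cl S κ (κ j)) : ℤ) * ((c : ℤ) - sz a (cl S κ (κ j))) -
      ∑ i ∈ Sᶜ \ (cl S κ (κ j)), (a i : ℤ) * ((c : ℤ) - sz a (cl S κ (κ i))) := by
  apply DD_split
  · intro i hi
    rw [mem_compl]
    exact (mem_cl.1 hi).1
  · intro i hi
    rw [(mem_cl.1 hi).2]

theorem cl_insert_self (_ : j ∉ S) :
    cl (insert j S) κ (κ j) = (cl S κ (κ j)).erase j := by
  ext i
  rw [mem_cl, mem_erase, mem_cl, mem_insert]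
  tauto

theorem cl_insert_other {i : ι} (hi : κ i ≠ κ j) :
    cl (insert j S) κ (κ i) = cl S κ (κ i) := by
  ext x
  rw [mem_cl, mem_cl, mem_insert]
  constructor
  · rintro ⟨h1, h2⟩
    exact ⟨fun h => h1 (Or.inr h), h2⟩
  · rintro ⟨h1, h2⟩
    refine ⟨?_, h2⟩
    rintro (rfl | h)
    · exact hi h2.symm
    · exact h1 h

theorem DD_insert (hj : j ∉ S) :
    DD a c (insert j S) κ = (sz a (insert j S) : ℤ) * ((c : ℤ) - sz a (insert j S)) -
      (sz a ((cl S κ (κ j)).erase j) : ℤ) * ((c : ℤ) - sz a ((cl S κ (κ j)).erase j)) -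
      ∑ i ∈ Sᶜ \ (cl S κ (κ j)), (a i : ℤ) * ((c : ℤ) - sz a (cl S κ (κ i))) := by
  rw [DD_split a c (insert j S) κ ((cl S κ (κ j)).erase j) (by
      intro i hi
      rw [mem_compl, mem_insert]
      rw [mem_erase, mem_cl] at hi
      rintro (h | h)
      · exact hi.1 h
      · exact hi.2.1 h) (sz a ((cl S κ (κ j)).erase j)) (by
      intro i hi
      rw [mem_erase, mem_cl] at hi
      rw [hi.2.2, cl_insert_self hj])]
  congr 1
  apply Finset.sum_congr
  · ext i
    simp only [mem_sdiff, mem_compl, mem_insert, mem_erase, mem_cl]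
    by_cases h : i = j
    · subst h; tauto
    · tauto
  · intro i hi
    rw [mem_sdiff, mem_compl, mem_cl] at hi
    rw [cl_insert_other]
    intro h
    exact hi.2 ⟨hi.1, h⟩

/-- the relation between the two values -/
theorem DD_rel (hj : j ∉ S) :
    DD a c (insert j S) κ = DD a c S κ -
      2 * (a j : ℤ) * ((sz a S : ℤ) + sz a (cl S κ (κ j)) - c) := by
  rw [DD_insert hj, DD_S hj, sz_insert hj]
  have h : (sz a (cl S κ (κ j)) : ℤ) = sz a ((cl S κ (κ j)).erase j) + a j := by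
    exact_mod_cast (sz_erase (a := a) (mem_cl.2 ⟨hj, rfl⟩ : j ∈ cl S κ (κ j))).symm
  rw [h]
  push_cast
  ring

/-- Case 2. -/
theorem caseT (hn : sz a univ = k + c) (hev : Even (sz a univ)) (hC : Conf a c S κ) (hj : j ∉ S)
    (hjs : sz a S + a j ≤ c) (hmin : ∀ i ∈ cl S κ (κ j), a j ≤ a i)
    (hle : DD a c S κ ≤ 2 * (a j : ℤ) * ((sz a S : ℤ) + sz a (cl S κ (κ j)) - c - 1)) :
    PMs a k := by
  classical
  have hjT : j ∈ cl S κ (κ j) := mem_cl.2 ⟨hj, rfl⟩
  obtain ⟨r, hr⟩ := DD_even a c S κ hev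
  have hD := hC.hD
  obtain ⟨N, hN⟩ : ∃ N : ℕ, (N : ℤ) = r := ⟨r.toNat, by omega⟩
  have hsb := hC.hsb j hj
  have hbj := hC.hb j hj
  obtain ⟨e, he⟩ : ∃ e, sz a S + sz a (cl S κ (κ j)) = c + 1 + e := Nat.exists_eq_add_of_le hsb
  have hb' := b'_ge hC hj hjs hmin
  have hbe := sz_erase (a := a) hjT
  have hNe : N ≤ a j * e := by
    have h1 : (2 : ℤ) * N ≤ 2 * (a j : ℤ) * e := by
      have : ((sz a S : ℤ) + sz a (cl S κ (κ j)) - c - 1) = e := by
        have : ((sz a S + sz a (cl S κ (κ j)) : ℕ) : ℤ) = ((c + 1 + e : ℕ) : ℤ) := by rw [he]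
        push_cast at this
        linarith
      rw [hN, ← hr, ← this]
      exact hle
    have h2 : (N : ℤ) ≤ (a j : ℤ) * e := by linarith
    exact_mod_cast h2
  have hszj : sz a {j} = a j := by simp [sz]
  obtain ⟨X, hdec, h1, h2, h3⟩ := bip a {j} ((cl S κ (κ j)).erase j) (by simp) e N (by
    rw [hszj, min_eq_left hb', max_eq_right hb', min_eq_left (by omega)]
    exact hNe)
  have hX : ∀ u v, X.Adj u v → u.1 ∉ S ∧ v.1 ∉ S ∧ κ u.1 = κ v.1 ∧ u.1 ≠ v.1 := by
    intro u v huv
    have := h1 u v huv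
    simp only [mem_singleton, mem_erase, mem_cl] at this
    rcases this with ⟨h, h', h'', h'''⟩ | ⟨⟨h', h'', h'''⟩, h⟩
    · exact ⟨h ▸ hj, h'', by rw [h, h'''], by rw [h]; exact h'.symm⟩
    · exact ⟨h'', h ▸ hj, by rw [h, h'''], by rw [h]; exact h'⟩
  refine lemX a S κ c k hn hev X hX ?_ ?_ ?_
  · intro v hv
    by_cases hvT : κ v.1 = κ j
    · rw [hvT, he]
      have := h2 v
      omega
    · rw [degree_zero_of X v]
      · have := hC.hsb v.1 hv
        omega
      · intro u huv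
        have := h1 v u huv
        simp only [mem_singleton, mem_erase, mem_cl] at this
        rcases this with ⟨h, _⟩ | ⟨⟨_, _, h⟩, _⟩
        · exact hvT (by rw [h])
        · exact hvT h
  · intro v hv
    have := hC.hb v.1 hv
    omega
  · rw [sum_deg_cast X N h3, hN, hr]

/-- Case 3: a class which is not full. -/
theorem caseN (ha : ∀ i, 0 < a i) (hn : sz a univ = k + c) (hev : Even (sz a univ))
    (hC : Conf a c S κ) (hj : j ∉ S)
    (hjs : sz a S + a j ≤ c) (hmin : ∀ i ∈ cl S κ (κ j), a j ≤ a i)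
    (hD' : DD a c (insert j S) κ < 0)
    (hgt : 2 * (a j : ℤ) * ((sz a S : ℤ) + sz a (cl S κ (κ j)) - c - 1) < DD a c S κ)
    (i : ι) (hi : i ∉ S) (hij : κ i ≠ κ j) (hnf : sz a (cl S κ (κ i)) < c) :
    PMs a k := by
  classical
  have hjT : j ∈ cl S κ (κ j) := mem_cl.2 ⟨hj, rfl⟩
  have hiM : i ∈ cl S κ (κ i) := mem_cl.2 ⟨hi, rfl⟩
  obtain ⟨r, hr⟩ := DD_even a c (insert j S) κ hev
  obtain ⟨t, ht⟩ : ∃ t : ℕ, (t : ℤ) = -r := ⟨(-r).toNat, by omega⟩
  have hrel := DD_rel (a := a) (c := c) (κ := κ) hj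
  have htlt : t < a j := by
    have : (2 : ℤ) * t < 2 * a j := by
      rw [ht]
      linarith
    have : (t : ℤ) < a j := by linarith
    exact_mod_cast this
  have hb' := b'_ge hC hj hjs hmin
  have hbe := sz_erase (a := a) hjT
  have hbj := hC.hb j hj
  have hbi := (ha i).trans_le (sz_pos a hiM)
  set b' := sz a ((cl S κ (κ j)).erase j) with hb'd
  set bm := sz a (cl S κ (κ i)) with hbm
  have hdisj : Disjoint ((cl S κ (κ j)).erase j) (cl S κ (κ i)) := by
    rw [Finset.disjoint_left]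
    intro x hx hx'
    rw [mem_erase, mem_cl] at hx
    rw [mem_cl] at hx'
    exact hij (hx'.2.symm.trans hx.2.2)
  obtain ⟨Y, hdec, h1, h2, h3⟩ := bip a ((cl S κ (κ j)).erase j) (cl S κ (κ i)) hdisj
    (min (c - b') (c - bm)) t (by
      rw [← hb'd, ← hbm]
      have haj : 1 ≤ a j := ha j
      rcases le_total b' bm with h | h
      · rw [min_eq_left h, max_eq_right h]
        have : 1 ≤ min (min (c - b') (c - bm)) bm := by
          rw [le_min_iff, le_min_iff]; omega
        calc t ≤ b' * 1 := by omega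
          _ ≤ _ := Nat.mul_le_mul_left _ this
      · rw [min_eq_right h, max_eq_left h]
        have : a j ≤ min (min (c - b') (c - bm)) b' := by
          rw [le_min_iff, le_min_iff]; omega
        calc t ≤ 1 * a j := by omega
          _ ≤ _ := Nat.mul_le_mul hbi this)
  have hclj := cl_insert_self (κ := κ) hj
  have hcli := cl_insert_other (S := S) (κ := κ) hij
  have hinsS : ∀ x, x ∉ insert j S ↔ x ≠ j ∧ x ∉ S := by
    intro x; rw [mem_insert]; tauto
  have hij' : i ≠ j := fun h => hij (by rw [h])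
  refine lemY a (insert j S) κ c k hn hev Y ?_ ?_ ?_ ?_
  · intro u v huv
    have := h1 u v huv
    simp only [mem_erase, mem_cl] at this
    rw [hinsS, hinsS]
    rcases this with ⟨⟨p1, p2, p3⟩, q1, q2⟩ | ⟨⟨q1, q2⟩, p1, p2, p3⟩
    · refine ⟨⟨p1, p2⟩, ⟨?_, q1⟩, ?_⟩
      · intro h; apply hij; rw [← q2, h]
      · rw [p3, q2]; exact hij.symm
    · refine ⟨⟨?_, q1⟩, ⟨p1, p2⟩, ?_⟩
      · intro h; apply hij; rw [← q2, h]
      · rw [p3, q2]; exact hij
  · intro x hx
    rw [hinsS] at hx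
    rw [sz_insert hj]
    by_cases h : κ x = κ j
    · rw [h, hclj, ← hb'd]
      have := hC.hsb j hj
      omega
    · rw [cl_insert_other h]
      have := hC.hsb x hx.2
      omega
  · intro v hv
    rw [hinsS] at hv
    have hd := h2 v
    by_cases h : κ v.1 = κ j
    · rw [h, hclj, ← hb'd]
      have : Y.degree v ≤ c - b' := hd.trans (min_le_left _ _)
      omega
    · rw [cl_insert_other h]
      by_cases h' : κ v.1 = κ i
      · rw [h', ← hbm]
        have : Y.degree v ≤ c - bm := hd.trans (min_le_right _ _)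
        omega
      · rw [degree_zero_of Y v]
        · exact hC.hb v.1 hv.2
        · intro u huv
          have := h1 v u huv
          simp only [mem_erase, mem_cl] at this
          rcases this with ⟨⟨_, _, p⟩, _⟩ | ⟨⟨_, p⟩, _⟩
          · exact h p
          · exact h' p
  · rw [sum_deg_cast Y t h3, ht, hr]
    ring

/-- the new labels, the parts of `S` get the label of `j` -/
def κn (S : Finset ι) (κ : ι → ι) (j : ι) : ι → ι := fun i => if i ∈ S then κ j else κ i

/-- Case 4: all other classes are full, two edges at least at every vertex. -/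
theorem caseE (ha : ∀ i, 0 < a i) (hn : sz a univ = k + c) (hev : Even (sz a univ))
    (hC : Conf a c S κ) (hj : j ∉ S)
    (hjs : sz a S + a j ≤ c) (hmin : ∀ i ∈ cl S κ (κ j), a j ≤ a i)
    (hD' : DD a c (insert j S) κ < 0)
    (hgt : 2 * (a j : ℤ) * ((sz a S : ℤ) + sz a (cl S κ (κ j)) - c - 1) < DD a c S κ)
    (hfull : ∀ i, i ∉ S → κ i ≠ κ j → sz a (cl S κ (κ i)) = c)
    (he1 : c + 2 ≤ sz a S + sz a (cl S κ (κ j))) :
    PMs a k := by
  classical
  have hjT : j ∈ cl S κ (κ j) := mem_cl.2 ⟨hj, rfl⟩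
  obtain ⟨r, hr⟩ := DD_even a c (insert j S) κ hev
  obtain ⟨t, ht⟩ : ∃ t : ℕ, (t : ℤ) = -r := ⟨(-r).toNat, by omega⟩
  have hrel := DD_rel (a := a) (c := c) (κ := κ) hj
  have htlt : t < a j := by
    have : (2 : ℤ) * t < 2 * a j := by
      rw [ht]
      linarith
    have : (t : ℤ) < a j := by linarith
    exact_mod_cast this
  have hb' := b'_ge hC hj hjs hmin
  have hbe := sz_erase (a := a) hjT
  have hbj := hC.hb j hj
  have hR : ∑ i ∈ Sᶜ \ (cl S κ (κ j)), (a i : ℤ) * ((c : ℤ) - sz a (cl S κ (κ i))) = 0 := by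
    apply Finset.sum_eq_zero
    intro i hi
    rw [mem_sdiff, mem_compl, mem_cl] at hi
    rw [hfull i hi.1 (fun h => hi.2 ⟨hi.1, h⟩)]
    ring
  set T' := (cl S κ (κ j)).erase j with hT'
  set b' := sz a T' with hb'd
  set s := sz a S with hs
  obtain ⟨e, he⟩ : ∃ e, s + sz a (cl S κ (κ j)) = c + 2 + e := Nat.exists_eq_add_of_le he1
  have hins := sz_insert (a := a) hj
  -- `2 t = (s + a j - b') (e + 2)`
  have h2t : 2 * (t : ℤ) = ((s : ℤ) + a j - b') * (e + 2) := by
    have h1 := DD_insert (a := a) (c := c) (κ := κ) hj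
    rw [hR, hr, hins, ← hT', ← hb'd, ← hs] at h1
    have h2 : (c : ℤ) = s + (b' + a j) - 2 - e := by
      have : ((s + (b' + a j) : ℕ) : ℤ) = ((c + 2 + e : ℕ) : ℤ) := by rw [hbe, he]
      push_cast at this
      linarith
    rw [ht]
    rw [h2] at h1
    push_cast at h1
    linear_combination (-1 : ℤ) * h1
  have hts : t ≤ s * (e + 1) := by
    have h1 : ((s : ℤ) + a j - b') ≤ s := by
      have : (a j : ℤ) ≤ b' := by exact_mod_cast hb'
      linarith
    have h3 : 2 * (t : ℤ) ≤ s * (e + 2) := by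
      rw [h2t]
      exact mul_le_mul_of_nonneg_right h1 (by positivity)
    have h4 : (t : ℤ) ≤ s * (e + 1) := by nlinarith
    exact_mod_cast h4
  obtain ⟨X, hdec, h1, h2, h3⟩ := bip a S {j} (by simpa using hj) (e + 1) t (by
    have hszj : sz a {j} = a j := by simp [sz]
    rw [hszj, ← hs]
    have hmin' : min (e + 1) (max s (a j)) = e + 1 := by
      apply min_eq_left
      apply le_trans _ (le_max_left _ _)
      omega
    rw [hmin']
    rcases le_total s (a j) with h | h
    · rw [min_eq_left h]; exact hts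
    · rw [min_eq_right h]
      calc t ≤ a j * 1 := by omega
        _ ≤ _ := Nat.mul_le_mul_left _ (by omega))
  -- the classes of the new configuration
  have hκS : ∀ i ∈ S, κn S κ j i = κ j := fun i hi => if_pos hi
  have hκN : ∀ i, i ∉ S → κn S κ j i = κ i := fun i hi => if_neg hi
  have hSd : ∀ i ∈ S, i ∉ T' := by
    intro i hi h
    rw [hT', mem_erase, mem_cl] at h
    exact h.2.1 hi
  have hjT' : j ∉ T' := by rw [hT']; simp
  have hc1 : cl T' (κn S κ j) (κ j) = insert j S := by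
    ext x
    rw [mem_cl, mem_insert]
    constructor
    · rintro ⟨p, q⟩
      by_cases hx : x ∈ S
      · exact Or.inr hx
      · rw [hκN x hx] at q
        left
        by_contra hxj
        exact p (by rw [hT', mem_erase, mem_cl]; exact ⟨hxj, hx, q⟩)
    · rintro (rfl | hx)
      · exact ⟨hjT', hκN x hj⟩
      · exact ⟨hSd x hx, hκS x hx⟩
  have hc2 : ∀ i, i ∉ S → κ i ≠ κ j → cl T' (κn S κ j) (κ i) = cl S κ (κ i) := by
    intro i hi hij
    ext x
    rw [mem_cl, mem_cl]
    constructor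
    · rintro ⟨_, q⟩
      by_cases hx : x ∈ S
      · rw [hκS x hx] at q
        exact absurd q.symm hij
      · rw [hκN x hx] at q
        exact ⟨hx, q⟩
    · rintro ⟨hx, q⟩
      refine ⟨?_, by rw [hκN x hx]; exact q⟩
      rw [hT', mem_erase, mem_cl]
      rintro ⟨_, _, h⟩
      exact hij (q.symm.trans h)
  have hcase : ∀ x, x ∉ T' → (x ∈ insert j S ∧ κn S κ j x = κ j) ∨
      (x ∉ S ∧ κ x ≠ κ j ∧ κn S κ j x = κ x) := by
    intro x hx
    by_cases hxS : x ∈ S
    · exact Or.inl ⟨mem_insert_of_mem hxS, hκS x hxS⟩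
    · by_cases hxj : x = j
      · subst hxj; exact Or.inl ⟨mem_insert_self _ _, hκN x hj⟩
      · refine Or.inr ⟨hxS, ?_, hκN x hxS⟩
        intro h
        exact hx (by rw [hT', mem_erase, mem_cl]; exact ⟨hxj, hxS, h⟩)
  refine lemX a T' (κn S κ j) c k hn hev X ?_ ?_ ?_ ?_
  · intro u v huv
    have := h1 u v huv
    simp only [mem_singleton] at this
    rcases this with ⟨p, q⟩ | ⟨q, p⟩
    · refine ⟨hSd _ p, by rw [q]; exact hjT', ?_, ?_⟩
      · rw [hκS _ p, q, hκN j hj]
      · rw [q]; intro h; rw [h] at p; exact hj p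
    · refine ⟨by rw [q]; exact hjT', hSd _ p, ?_, ?_⟩
      · rw [hκS _ p, q, hκN j hj]
      · rw [q]; intro h; rw [← h] at p; exact hj p
  · intro v hv
    rcases hcase v.1 hv with ⟨_, h⟩ | ⟨p1, p2, h⟩
    · rw [h, hc1, hins, ← hb'd]
      have := h2 v
      omega
    · rw [h, hc2 v.1 p1 p2, hfull v.1 p1 p2, ← hb'd, degree_zero_of X v]
      · have := ha j
        omega
      · intro u huv
        have := h1 v u huv
        simp only [mem_singleton] at this
        rcases this with ⟨q, _⟩ | ⟨q, _⟩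
        · exact p1 q
        · exact p2 (by rw [q])
  · intro v hv
    rcases hcase v.1 hv with ⟨_, h⟩ | ⟨p1, p2, h⟩
    · rw [h, hc1, hins]
      omega
    · rw [h, hc2 v.1 p1 p2, hfull v.1 p1 p2]
      omega
  · rw [sum_deg_cast X t h3]
    rw [DD_split a c T' (κn S κ j) (insert j S) (by
        intro x hx
        rw [mem_compl]
        rw [mem_insert] at hx
        rcases hx with rfl | hx
        · exact hjT'
        · exact hSd x hx) (sz a (insert j S)) (by
        intro x hx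
        rw [mem_insert] at hx
        rcases hx with rfl | hx
        · rw [hκN x hj, hc1]
        · rw [hκS x hx, hc1])]
    rw [Finset.sum_eq_zero]
    · have h5 := DD_insert (a := a) (c := c) (κ := κ) hj
      rw [hR, hr, ← hT', ← hb'd] at h5
      rw [ht, ← hb'd]
      linarith
    · intro x hx
      rw [mem_sdiff, mem_compl] at hx
      rcases hcase x hx.1 with ⟨p, _⟩ | ⟨p1, p2, h⟩
      · exact absurd p hx.2
      · rw [h, hc2 x p1 p2, hfull x p1 p2]
        ring

end cross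

end Pool.Agent.NH75.MP
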