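import Pool.Agent.NH75.MP.Cases2

set_option autoImplicit false
set_option linter.unusedSectionVars false

/-! The cases of the construction, part 3, and the existence theorem. -/

namespace Pool.Agent.NH75.MP

open Finset SimpleGraph

variable {ι : Type} [Fintype ι] [DecidableEq ι]

/-- a perfect matching between different groups -/
theorem pm_graph (a : ι → ℕ) (T : Finset ι) (γ : ι → ℕ) (hev : Even (sz a T))
    (hhalf : ∀ m, 2 * sz a (T.filter fun i => γ i = m) ≤ sz a T) :
    ∃ (X : SimpleGraph (Σ i, Fin (a i))) (_ : DecidableRel X.Adj),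
      (∀ u v, X.Adj u v → u.1 ∈ T ∧ v.1 ∈ T ∧ γ u.1 ≠ γ v.1) ∧
      (∀ v, X.degree v = if v.1 ∈ T then 1 else 0) := by
  classical
  let N : Type := {v : (Σ i, Fin (a i)) // v.1 ∈ T}
  have hcN : Fintype.card N = sz a T := by
    rw [Fintype.card_subtype, card_filter_fst a (fun i => i ∈ T)]
    congr 1
    ext i
    simp
  obtain ⟨f, hf1, hf2⟩ := exists_pm (fun x : N => γ x.1.1) (by rw [hcN]; exact hev) (by
    intro m
    rw [hcN]
    refine le_trans (Nat.mul_le_mul_left _ ?_) (hhalf m)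
    have e0 : (univ.filter fun v : (Σ i, Fin (a i)) => v.1 ∈ T.filter fun i => γ i = m).card =
        sz a (T.filter fun i => γ i = m) := by
      rw [card_filter_fst a (fun i => i ∈ T.filter fun i => γ i = m)]
      congr 1
      ext i
      simp
    rw [← e0]
    apply Finset.card_le_card_of_injOn (fun x : N => x.1)
    · intro x hx
      rw [Finset.mem_coe, mem_filter] at hx ⊢
      refine ⟨mem_univ _, ?_⟩
      rw [mem_filter]
      exact ⟨x.2, hx.2⟩
    · intro x _ y _ h
      exact Subtype.ext h)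
  let X : SimpleGraph (Σ i, Fin (a i)) :=
    { Adj := fun u v => ∃ (hu : u.1 ∈ T) (hv : v.1 ∈ T), f ⟨u, hu⟩ = ⟨v, hv⟩
      symm := ⟨by
        rintro u v ⟨hu, hv, h⟩
        exact ⟨hv, hu, by rw [← h, hf1]⟩⟩
      loopless := ⟨by
        rintro u ⟨hu, hv, h⟩
        have := hf2 ⟨u, hu⟩
        rw [h] at this
        exact this rfl⟩ }
  have hdec : DecidableRel X.Adj := Classical.decRel _
  refine ⟨X, hdec, ?_, ?_⟩
  · rintro u v ⟨hu, hv, h⟩
    refine ⟨hu, hv, ?_⟩
    have := hf2 ⟨u, hu⟩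
    rw [h] at this
    exact this.symm
  · intro v
    by_cases hv : v.1 ∈ T
    · rw [if_pos hv, ← card_neighborFinset_eq_degree, Finset.card_eq_one]
      refine ⟨(f ⟨v, hv⟩).1, ?_⟩
      ext u
      rw [mem_neighborFinset, mem_singleton]
      constructor
      · rintro ⟨h1, h2, h⟩
        rw [h]
      · rintro rfl
        exact ⟨hv, (f ⟨v, hv⟩).2, rfl⟩
    · rw [if_neg hv]
      exact degree_zero_of X v (fun u h => hv h.1)

section cross

variable {a : ι → ℕ} {c k : ℕ} {S : Finset ι} {κ : ι → ι} {j : ι}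

/-- Case 5: all other classes are full, and `S` together with the class has size `c + 1`. -/
theorem caseF (ha : ∀ i, 0 < a i) (hn : sz a univ = k + c) (hev : Even (sz a univ))
    (hC : Conf a c S κ) (hj : j ∉ S)
    (hjs : sz a S + a j ≤ c) (hmin : ∀ i ∈ cl S κ (κ j), a j ≤ a i)
    (hD' : DD a c (insert j S) κ < 0)
    (hfull : ∀ i, i ∉ S → κ i ≠ κ j → sz a (cl S κ (κ i)) = c)
    (he0 : sz a S + sz a (cl S κ (κ j)) = c + 1) (hk : 2 ≤ k) :
    PMs a k := by
  classical
  have hjT : j ∈ cl S κ (κ j) := mem_cl.2 ⟨hj, rfl⟩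
  have hb' := b'_ge hC hj hjs hmin
  have hbe := sz_erase (a := a) hjT
  have hbj := hC.hb j hj
  have hins := sz_insert (a := a) hj
  have hR : ∑ i ∈ Sᶜ \ (cl S κ (κ j)), (a i : ℤ) * ((c : ℤ) - sz a (cl S κ (κ i))) = 0 := by
    apply Finset.sum_eq_zero
    intro i hi
    rw [mem_sdiff, mem_compl, mem_cl] at hi
    rw [hfull i hi.1 (fun h => hi.2 ⟨hi.1, h⟩)]
    ring
  set T' := (cl S κ (κ j)).erase j with hT'
  set b' := sz a T' with hb'd
  set s := sz a S with hs
  have hSl : Disjoint S (cl S κ (κ j)) := by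
    rw [Finset.disjoint_left]
    intro x hx hx'
    exact (mem_cl.1 hx').1 hx
  have hszU : sz a (S ∪ cl S κ (κ j)) = c + 1 := by
    rw [sz, Finset.sum_union hSl]
    exact he0
  -- the sizes of the three groups
  have q1 : 2 * s ≤ c + 1 := by
    have h1 := DD_S (a := a) (c := c) (κ := κ) hj
    rw [hR, ← hs] at h1
    have h2 := hC.hD
    by_contra hcon
    have h3 : sz a (cl S κ (κ j)) < s := by omega
    have h4 : (c : ℤ) = s + sz a (cl S κ (κ j)) - 1 := by
      have : ((s + sz a (cl S κ (κ j)) : ℕ) : ℤ) = ((c + 1 : ℕ) : ℤ) := by rw [he0]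
      push_cast at this
      linarith
    have h5 : (sz a (cl S κ (κ j)) : ℤ) < s := by exact_mod_cast h3
    have h6 : DD a c S κ = (sz a (cl S κ (κ j)) : ℤ) - s := by
      rw [h4] at h1
      rw [h1]
      ring
    omega
  have q2 : 2 * b' ≤ c + 1 := by
    have h1 := DD_insert (a := a) (c := c) (κ := κ) hj
    rw [hR, hins, ← hT', ← hb'd] at h1
    by_contra hcon
    have h3 : s + a j < b' := by omega
    have h4 : (c : ℤ) = s + (b' + a j) - 1 := by
      have : ((s + (b' + a j) : ℕ) : ℤ) = ((c + 1 : ℕ) : ℤ) := by rw [hbe, he0]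
      push_cast at this
      linarith
    rw [h4] at h1
    push_cast at h1
    have h5 : (s : ℤ) + a j < b' := by exact_mod_cast h3
    have h6 : DD a c (insert j S) κ = (b' : ℤ) - (s + a j) := by
      rw [h1]
      ring
    omega
  -- another class
  obtain ⟨i0, hi0, hi0j⟩ : ∃ i, i ∉ S ∧ κ i ≠ κ j := by
    by_contra hcon
    push Not at hcon
    have : sz a univ ≤ c + 1 := by
      rw [← hszU]
      apply Finset.sum_le_sum_of_subset
      intro i _
      rw [mem_union, mem_cl]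
      by_cases hi : i ∈ S
      · exact Or.inl hi
      · exact Or.inr ⟨hi, hcon i hi⟩
    omega
  set M := cl S κ (κ i0) with hM
  have hszM : sz a M = c := hfull i0 hi0 hi0j
  have hc1 : 1 ≤ c := by
    rw [← hszM]
    exact (ha i0).trans_le (sz_pos a (mem_cl.2 ⟨hi0, rfl⟩))
  have hκS : ∀ i ∈ S, κn S κ j i = κ j := fun i hi => if_pos hi
  have hκN : ∀ i, i ∉ S → κn S κ j i = κ i := fun i hi => if_neg hi
  have hSM : ∀ i ∈ S, i ∉ M := fun i hi h => (mem_cl.1 h).1 hi
  have hlM : ∀ i, κ i = κ j → i ∉ M := fun i hi h => hi0j ((mem_cl.1 h).2.symm.trans hi)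
  have hc1' : cl M (κn S κ j) (κ j) = S ∪ cl S κ (κ j) := by
    ext x
    simp only [mem_cl, mem_union]
    constructor
    · rintro ⟨p, q⟩
      by_cases hx : x ∈ S
      · exact Or.inl hx
      · rw [hκN x hx] at q
        exact Or.inr ⟨hx, q⟩
    · rintro (hx | ⟨hx, q⟩)
      · exact ⟨hSM x hx, hκS x hx⟩
      · exact ⟨hlM x q, by rw [hκN x hx]; exact q⟩
  have hc2 : ∀ i, i ∉ S → κ i ≠ κ j → κ i ≠ κ i0 →
      cl M (κn S κ j) (κ i) = cl S κ (κ i) := by
    intro i hi hij hii
    ext x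
    simp only [mem_cl]
    constructor
    · rintro ⟨_, q⟩
      by_cases hx : x ∈ S
      · rw [hκS x hx] at q
        exact absurd q.symm hij
      · rw [hκN x hx] at q
        exact ⟨hx, q⟩
    · rintro ⟨hx, q⟩
      refine ⟨?_, by rw [hκN x hx]; exact q⟩
      intro h
      exact hii (q.symm.trans (mem_cl.1 h).2)
  have hcase : ∀ x, x ∉ M → (x ∈ S ∪ cl S κ (κ j) ∧ κn S κ j x = κ j) ∨
      (x ∉ S ∧ κ x ≠ κ j ∧ κ x ≠ κ i0 ∧ κn S κ j x = κ x) := by
    intro x hx
    by_cases hxS : x ∈ S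
    · exact Or.inl ⟨mem_union_left _ hxS, hκS x hxS⟩
    · by_cases hxj : κ x = κ j
      · refine Or.inl ⟨mem_union_right _ (mem_cl.2 ⟨hxS, hxj⟩), ?_⟩
        rw [hκN x hxS, hxj]
      · refine Or.inr ⟨hxS, hxj, ?_, hκN x hxS⟩
        intro h
        exact hx (mem_cl.2 ⟨hxS, h⟩)
  -- the excess
  have hDD : DD a c M (κn S κ j) = c + 1 := by
    rw [DD_split a c M (κn S κ j) (S ∪ cl S κ (κ j)) (by
        intro x hx
        rw [mem_compl]
        rw [mem_union] at hx
        rcases hx with hx | hx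
        · exact hSM x hx
        · exact hlM x (mem_cl.1 hx).2) (c + 1) (by
        intro x hx
        rw [mem_union] at hx
        rcases hx with hx | hx
        · rw [hκS x hx, hc1', hszU]
        · rw [hκN x (mem_cl.1 hx).1, (mem_cl.1 hx).2, hc1', hszU])]
    rw [Finset.sum_eq_zero, hszM, hszU]
    · push_cast; ring
    · intro x hx
      rw [mem_sdiff, mem_compl] at hx
      rcases hcase x hx.1 with ⟨p, _⟩ | ⟨p1, p2, p3, h⟩
      · exact absurd p hx.2
      · rw [h, hc2 x p1 p2 p3, hfull x p1 p2]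
        ring
  have hevc : Even (c + 1) := by
    obtain ⟨r, hr⟩ := DD_even a c M (κn S κ j) hev
    rw [hDD] at hr
    exact ⟨r.toNat, by omega⟩
  -- the perfect matching between the three groups
  let γ : ι → ℕ := fun i => if i ∈ S then 0 else if i = j then 1 else 2
  obtain ⟨X, hdec, h1, h2⟩ := pm_graph a (S ∪ cl S κ (κ j)) γ (by rw [hszU]; exact hevc) (by
    intro m
    rw [hszU]
    have hsub : ∀ A : Finset ι, ((S ∪ cl S κ (κ j)).filter fun i => γ i = m) ⊆ A →
        sz a ((S ∪ cl S κ (κ j)).filter fun i => γ i = m) ≤ sz a A :=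
      fun A hA => Finset.sum_le_sum_of_subset hA
    by_cases hm0 : m = 0
    · have := hsub S (by
        intro x hx
        rw [mem_filter] at hx
        by_contra hxS
        have h3 := hx.2
        simp only [γ, if_neg hxS] at h3
        split_ifs at h3 <;> omega)
      omega
    · by_cases hm1 : m = 1
      · have := hsub {j} (by
          intro x hx
          rw [mem_filter] at hx
          rw [mem_singleton]
          by_contra hxj
          have h3 := hx.2
          simp only [γ, if_neg hxj] at h3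
          split_ifs at h3 <;> omega)
        have h4 : sz a {j} = a j := by simp [sz]
        omega
      · have := hsub T' (by
          intro x hx
          rw [mem_filter, mem_union] at hx
          have h3 := hx.2
          have hxS : x ∉ S := by
            intro h
            simp only [γ, if_pos h] at h3
            omega
          have hxj : x ≠ j := by
            intro h
            simp only [γ, if_neg hxS, if_pos h] at h3
            omega
          rw [hT', mem_erase]
          exact ⟨hxj, hx.1.resolve_left hxS⟩)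
        omega)
  have hγ : ∀ x y : ι, γ x ≠ γ y → x ≠ y := fun x y h h' => h (by rw [h'])
  have hUM : ∀ x, x ∈ S ∪ cl S κ (κ j) → x ∉ M ∧ κn S κ j x = κ j := by
    intro x hx
    rw [mem_union] at hx
    rcases hx with hx | hx
    · exact ⟨hSM x hx, hκS x hx⟩
    · refine ⟨hlM x (mem_cl.1 hx).2, ?_⟩
      rw [hκN x (mem_cl.1 hx).1, (mem_cl.1 hx).2]
  refine lemX a M (κn S κ j) c k hn hev X ?_ ?_ ?_ ?_
  · intro u v huv
    obtain ⟨p1, p2, p3⟩ := h1 u v huv
    refine ⟨(hUM _ p1).1, (hUM _ p2).1, ?_, hγ _ _ p3⟩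
    rw [(hUM _ p1).2, (hUM _ p2).2]
  · intro v hv
    rw [hszM]
    rcases hcase v.1 hv with ⟨p, h⟩ | ⟨p1, p2, p3, h⟩
    · rw [h, hc1', hszU, h2 v, if_pos p]
      omega
    · rw [h, hc2 v.1 p1 p2 p3, hfull v.1 p1 p2, h2 v, if_neg]
      · omega
      · rw [mem_union, mem_cl]
        rintro (h5 | ⟨_, h5⟩)
        · exact p1 h5
        · exact p2 h5
  · intro v hv
    rcases hcase v.1 hv with ⟨p, h⟩ | ⟨p1, p2, p3, h⟩
    · rw [h, hc1', hszU, h2 v, if_pos p]
    · rw [h, hc2 v.1 p1 p2 p3, hfull v.1 p1 p2]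
      omega
  · rw [hDD]
    have h5 : ∑ v, X.degree v = c + 1 := by
      rw [Finset.sum_congr rfl (fun v _ => h2 v), ← Finset.card_filter,
        card_filter_fst a (fun i => i ∈ S ∪ cl S κ (κ j)), ← hszU]
      congr 1
      ext i
      simp
    have h6 : ((∑ v, X.degree v : ℕ) : ℤ) = ((c + 1 : ℕ) : ℤ) := by rw [h5]
    push_cast at h6
    exact h6

end cross

/-- Case 0: no class dominates. -/
theorem caseP (a : ι → ℕ) (c k : ℕ) (S : Finset ι) (κ : ι → ι) (hn : sz a univ = k + c)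
    (hev : Even (sz a univ)) (hb : ∀ i, i ∉ S → sz a (cl S κ (κ i)) ≤ c)
    (hsb : ∀ i, i ∉ S → c + 1 ≤ sz a S + sz a (cl S κ (κ i)))
    (hbb : ∀ i, i ∉ S → ∀ j, j ∉ S → κ i ≠ κ j →
      c + 1 ≤ sz a (cl S κ (κ i)) + sz a (cl S κ (κ j)))
    (hs : sz a S ≤ c)
    (hmaxg : ∀ i, i ∉ S → (sz a (cl S κ (κ i)) : ℤ) * ((c : ℤ) - sz a (cl S κ (κ i))) ≤
      (sz a S : ℤ) * ((c : ℤ) - sz a S))
    (hD : DD a c S κ < 0) : PMs a k := by
  classical
  obtain ⟨r, hr⟩ := DD_even a c S κ hev
  obtain ⟨τ, hτ⟩ : ∃ t : ℕ, (t : ℤ) = -r := ⟨(-r).toNat, by omega⟩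
  let cap : (Σ i, Fin (a i)) → ℕ := fun v => c - sz a (cl S κ (κ v.1))
  -- sums of the capacities
  have hcapsum : ∀ T : Finset ι, T ⊆ Sᶜ → ((∑ v ∈ vs a T, cap v : ℕ) : ℤ) =
      ∑ i ∈ T, (a i : ℤ) * ((c : ℤ) - sz a (cl S κ (κ i))) := by
    intro T hT
    have e0 : ∀ v : (Σ i, Fin (a i)), (if v.1 ∈ T then (cap v : ℤ) else 0) =
        if v.1 ∈ T then ((c : ℤ) - sz a (cl S κ (κ v.1))) else 0 := by
      intro v
      by_cases hv : v.1 ∈ T
      · rw [if_pos hv, if_pos hv]
        have h1 := hb v.1 (by have := hT hv; rwa [mem_compl] at this)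
        simp only [cap]
        push_cast [Nat.cast_sub h1]
        ring
      · rw [if_neg hv, if_neg hv]
    have e1 : ((∑ v ∈ vs a T, cap v : ℕ) : ℤ) =
        ∑ v : (Σ i, Fin (a i)), (if v.1 ∈ T then (cap v : ℤ) else 0) := by
      rw [vs, Finset.sum_filter]
      push_cast
      rfl
    rw [e1, Finset.sum_congr rfl (fun v _ => e0 v), Fintype.sum_sigma]
    simp only [Finset.sum_const, card_univ, Fintype.card_fin, nsmul_eq_mul]
    rw [← Finset.sum_filter_add_sum_filter_not univ (fun i => i ∈ T)]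
    rw [Finset.sum_eq_zero (s := univ.filter fun i => ¬ i ∈ T)]
    · rw [add_zero]
      have : univ.filter (fun i => i ∈ T) = T := by ext i; simp
      rw [this]
      apply Finset.sum_congr rfl
      intro i hi
      rw [if_pos hi]
    · intro i hi
      rw [mem_filter] at hi
      rw [if_neg hi.2, mul_zero]
  have htot : ((∑ v ∈ vs a Sᶜ, cap v : ℕ) : ℤ) =
      (sz a S : ℤ) * ((c : ℤ) - sz a S) + 2 * τ := by
    rw [hcapsum _ (Subset.refl _), hτ]
    rw [DD] at hr
    linarith
  have hs0 : 0 ≤ (sz a S : ℤ) * ((c : ℤ) - sz a S) := by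
    apply mul_nonneg (Int.natCast_nonneg _)
    have : (sz a S : ℤ) ≤ c := by exact_mod_cast hs
    linarith
  obtain ⟨Y, hdec, h1, h2, h3⟩ := exists_cross (vs a Sᶜ) (fun v => κ v.1) cap
    (by
      intro u _ v _ huv
      have huv' : κ u.1 = κ v.1 := huv
      simp only [cap, huv'])
    (by
      intro u hu v hv huv
      rw [mem_vs, mem_compl] at hu hv
      have e1 : (vs a Sᶜ).filter (fun w => κ w.1 = κ v.1) = vs a (cl S κ (κ v.1)) := by
        ext w
        rw [mem_filter, mem_vs, mem_vs, mem_cl, mem_compl]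
      rw [e1, card_vs]
      have h3 := hbb u.1 hu v.1 hv huv
      have h4 := hb u.1 hu
      have h5 := hsb v.1 hv
      simp only [cap]
      omega)
    τ (by
      have : ((2 * τ : ℕ) : ℤ) ≤ ((∑ v ∈ vs a Sᶜ, cap v : ℕ) : ℤ) := by
        rw [htot]
        push_cast
        linarith
      exact_mod_cast this)
    (by
      intro m
      have e1 : (vs a Sᶜ).filter (fun w => κ w.1 = m) = vs a (cl S κ m) := by
        ext w
        rw [mem_filter, mem_vs, mem_vs, mem_cl, mem_compl]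
      rw [e1]
      have : ((∑ v ∈ vs a (cl S κ m), cap v + 2 * τ : ℕ) : ℤ) ≤
          ((∑ v ∈ vs a Sᶜ, cap v : ℕ) : ℤ) := by
        rw [Nat.cast_add, htot, hcapsum (cl S κ m) (by
          intro x hx
          rw [mem_compl]
          exact (mem_cl.1 hx).1)]
        push_cast
        have h5 : ∑ i ∈ cl S κ m, (a i : ℤ) * ((c : ℤ) - sz a (cl S κ (κ i))) =
            (sz a (cl S κ m) : ℤ) * ((c : ℤ) - sz a (cl S κ m)) := by
          rw [Finset.sum_congr rfl (fun i hi => by rw [(mem_cl.1 hi).2]), ← Finset.sum_mul]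
          congr 1
          rw [sz]
          push_cast
          rfl
        rw [h5]
        rcases (cl S κ m).eq_empty_or_nonempty with h6 | ⟨i, hi⟩
        · have h8 : sz a (∅ : Finset ι) = 0 := by simp [sz]
          rw [h6, h8]
          push_cast
          linarith
        · have h7 := hmaxg i (mem_cl.1 hi).1
          rw [(mem_cl.1 hi).2] at h7
          linarith
      exact_mod_cast this)
  refine lemY a S κ c k hn hev Y ?_ hsb ?_ ?_
  · intro u v huv
    have := h1 u v huv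
    rw [mem_vs, mem_vs, mem_compl, mem_compl] at this
    exact this
  · intro v hv
    have h4 := h2 v
    have h5 := hb v.1 hv
    simp only [cap] at h4
    omega
  · rw [sum_deg_cast Y τ h3, hτ, hr]
    ring

/-- the initial partition -/
theorem exists_partition (a : ι → ℕ) (ha : ∀ i, 0 < a i) (c : ℕ) (hc : ∀ i, a i ≤ c) :
    ∃ κ : ι → ι, (∀ i, sz a (cl ∅ κ (κ i)) ≤ c) ∧
      ∀ i j, κ i ≠ κ j → c + 1 ≤ sz a (cl ∅ κ (κ i)) + sz a (cl ∅ κ (κ j)) := by
  classical
  let P : Finset (ι → ι) := univ.filter fun κ => ∀ i, sz a (cl ∅ κ (κ i)) ≤ c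
  have hne : P.Nonempty := by
    refine ⟨id, ?_⟩
    rw [mem_filter]
    refine ⟨mem_univ _, fun i => ?_⟩
    have : cl ∅ (id : ι → ι) (id i) = {i} := by
      ext x
      rw [mem_cl, mem_singleton]
      simp
    rw [this]
    simpa [sz] using hc i
  obtain ⟨κ, hκ, hmax⟩ := Finset.exists_max_image P
    (fun κ => ∑ i, a i * sz a (cl ∅ κ (κ i))) hne
  have hκ' := (mem_filter.1 hκ).2
  refine ⟨κ, hκ', ?_⟩
  intro i j hij
  by_contra hcon
  have hle : sz a (cl ∅ κ (κ i)) + sz a (cl ∅ κ (κ j)) ≤ c := by omega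
  let κ' : ι → ι := fun x => if κ x = κ j then κ i else κ x
  have hκ1 : ∀ x, κ x = κ j → κ' x = κ i := fun x hx => if_pos hx
  have hκ2 : ∀ x, κ x ≠ κ j → κ' x = κ x := fun x hx => if_neg hx
  have hdisj : Disjoint (cl ∅ κ (κ i)) (cl ∅ κ (κ j)) := by
    rw [Finset.disjoint_left]
    intro x hx hx'
    exact hij ((mem_cl.1 hx).2.symm.trans (mem_cl.1 hx').2)
  have hcli : cl ∅ κ' (κ i) = cl ∅ κ (κ i) ∪ cl ∅ κ (κ j) := by
    ext x
    simp only [mem_cl, mem_union]
    constructor
    · rintro ⟨h, h'⟩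
      by_cases hx : κ x = κ j
      · exact Or.inr ⟨h, hx⟩
      · rw [hκ2 x hx] at h'
        exact Or.inl ⟨h, h'⟩
    · rintro (⟨h, h'⟩ | ⟨h, h'⟩)
      · refine ⟨h, ?_⟩
        rw [hκ2 x (by rw [h']; exact hij), h']
      · exact ⟨h, hκ1 x h'⟩
  have hclo : ∀ x, κ x ≠ κ i → κ x ≠ κ j → cl ∅ κ' (κ x) = cl ∅ κ (κ x) := by
    intro x hxi hxj
    ext y
    rw [mem_cl, mem_cl]
    constructor
    · rintro ⟨h, h'⟩
      by_cases hy : κ y = κ j
      · rw [hκ1 y hy] at h'
        exact absurd h'.symm hxi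
      · rw [hκ2 y hy] at h'
        exact ⟨h, h'⟩
    · rintro ⟨h, h'⟩
      refine ⟨h, ?_⟩
      rw [hκ2 y (by rw [h']; exact hxj), h']
  have hszu : sz a (cl ∅ κ' (κ i)) = sz a (cl ∅ κ (κ i)) + sz a (cl ∅ κ (κ j)) := by
    rw [hcli]
    exact Finset.sum_union hdisj
  have hP : κ' ∈ P := by
    rw [mem_filter]
    refine ⟨mem_univ _, fun x => ?_⟩
    by_cases hxj : κ x = κ j
    · rw [hκ1 x hxj, hszu]; exact hle
    · rw [hκ2 x hxj]
      by_cases hxi : κ x = κ i
      · rw [hxi, hszu]; exact hle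
      · rw [hclo x hxi hxj]
        exact hκ' x
  have hlt : ∑ x, a x * sz a (cl ∅ κ (κ x)) < ∑ x, a x * sz a (cl ∅ κ' (κ' x)) := by
    apply Finset.sum_lt_sum
    · intro x _
      apply Nat.mul_le_mul_left
      by_cases hxj : κ x = κ j
      · rw [hκ1 x hxj, hszu, hxj]; omega
      · rw [hκ2 x hxj]
        by_cases hxi : κ x = κ i
        · rw [hxi, hszu]; omega
        · rw [hclo x hxi hxj]
    · refine ⟨i, mem_univ _, ?_⟩
      rw [hκ2 i hij, hszu]
      have h1 : 0 < sz a (cl ∅ κ (κ j)) := (ha j).trans_le (sz_pos a (mem_cl.2 ⟨by simp, rfl⟩))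
      exact Nat.mul_lt_mul_of_pos_left (by omega) (ha i)
  have := hmax κ' hP
  omega

/-- **Existence.** -/
theorem exists_PMs (a : ι → ℕ) (ha : ∀ i, 0 < a i) (c k : ℕ) (hk : 2 ≤ k)
    (hn : sz a univ = k + c) (hev : Even (sz a univ)) (hc : ∀ i, a i ≤ c)
    (hstar : ∀ S : Finset ι, (sz a S : ℤ) * ((c : ℤ) - sz a S) ≤
      ∑ i ∈ Sᶜ, (a i : ℤ) * ((c : ℤ) - a i)) : PMs a k := by
  classical
  obtain ⟨κ, hκ1, hκ2⟩ := exists_partition a ha c hc
  have hne : (univ : Finset ι).Nonempty := by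
    rw [Finset.nonempty_iff_ne_empty]
    intro h
    rw [h] at hn
    simp [sz] at hn
    omega
  obtain ⟨i0, -, hmax0⟩ := Finset.exists_max_image univ
    (fun i => (sz a (cl ∅ κ (κ i)) : ℤ) * ((c : ℤ) - sz a (cl ∅ κ (κ i)))) hne
  set S0 := cl ∅ κ (κ i0) with hS0
  have hcl0 : ∀ i, i ∉ S0 → cl S0 κ (κ i) = cl ∅ κ (κ i) ∧ κ i ≠ κ i0 := by
    intro i hi
    have hi' : κ i ≠ κ i0 := by
      intro h
      exact hi (mem_cl.2 ⟨by simp, h⟩)
    refine ⟨?_, hi'⟩
    ext x
    simp only [mem_cl]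
    constructor
    · rintro ⟨_, h⟩
      exact ⟨by simp, h⟩
    · rintro ⟨_, h⟩
      refine ⟨?_, h⟩
      intro hx
      exact hi' (h.symm.trans (mem_cl.1 hx).2)
  by_cases hD0 : DD a c S0 κ < 0
  · refine caseP a c k S0 κ hn hev ?_ ?_ ?_ (hκ1 i0) ?_ hD0
    · intro i hi
      rw [(hcl0 i hi).1]; exact hκ1 i
    · intro i hi
      rw [(hcl0 i hi).1]
      exact hκ2 i0 i (hcl0 i hi).2.symm
    · intro i hi j hj hij
      rw [(hcl0 i hi).1, (hcl0 j hj).1]
      exact hκ2 i j hij
    · intro i hi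
      rw [(hcl0 i hi).1]
      exact hmax0 i (mem_univ _)
  · have hconf0 : Conf a c S0 κ := by
      refine ⟨hκ1 i0, ?_, ?_, not_lt.1 hD0⟩
      · intro i hi
        rw [(hcl0 i hi).1]; exact hκ1 i
      · intro i hi
        rw [(hcl0 i hi).1]
        exact hκ2 i0 i (hcl0 i hi).2.symm
    obtain ⟨⟨S, κ1⟩, hmem, hmaxS⟩ := Finset.exists_max_image
      ((univ : Finset (Finset ι × (ι → ι))).filter fun p => Conf a c p.1 p.2)
      (fun p => sz a p.1) ⟨(S0, κ), by rw [mem_filter]; exact ⟨mem_univ _, hconf0⟩⟩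
    have hC : Conf a c S κ1 := (mem_filter.1 hmem).2
    by_cases hall : ∀ i, i ∉ S → c + 1 ≤ sz a S + a i
    · exact caseMax a S κ1 c k hn hev (hstar S) hC.hb hC.hD hall
    push Not at hall
    obtain ⟨i1, hi1, hi1s⟩ := hall
    obtain ⟨j, hjmem, hjmin⟩ := Finset.exists_min_image (cl S κ1 (κ1 i1)) a
      ⟨i1, mem_cl.2 ⟨hi1, rfl⟩⟩
    have hj : j ∉ S := (mem_cl.1 hjmem).1
    have hκj : κ1 j = κ1 i1 := (mem_cl.1 hjmem).2
    have hjs : sz a S + a j ≤ c := by
      have := hjmin i1 (mem_cl.2 ⟨hi1, rfl⟩)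
      omega
    have hmin : ∀ i ∈ cl S κ1 (κ1 j), a j ≤ a i := by
      intro i hi
      rw [hκj] at hi
      exact hjmin i hi
    have hD' : DD a c (insert j S) κ1 < 0 := by
      by_contra hcon
      have hC' : Conf a c (insert j S) κ1 := by
        have hbe := sz_erase (a := a) (mem_cl.2 ⟨hj, rfl⟩ : j ∈ cl S κ1 (κ1 j))
        refine ⟨by rw [sz_insert hj]; omega, ?_, ?_, not_lt.1 hcon⟩
        · intro i hi
          rw [mem_insert, not_or] at hi
          by_cases h : κ1 i = κ1 j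
          · rw [h, cl_insert_self hj]
            have := hC.hb j hj
            omega
          · rw [cl_insert_other h]
            exact hC.hb i hi.2
        · intro i hi
          rw [mem_insert, not_or] at hi
          rw [sz_insert hj]
          by_cases h : κ1 i = κ1 j
          · rw [h, cl_insert_self hj]
            have := hC.hsb j hj
            omega
          · rw [cl_insert_other h]
            have := hC.hsb i hi.2
            omega
      have := hmaxS (insert j S, κ1) (by rw [mem_filter]; exact ⟨mem_univ _, hC'⟩)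
      simp only at this
      rw [sz_insert hj] at this
      have := ha j
      omega
    by_cases hle : DD a c S κ1 ≤
        2 * (a j : ℤ) * ((sz a S : ℤ) + sz a (cl S κ1 (κ1 j)) - c - 1)
    · exact caseT hn hev hC hj hjs hmin hle
    rw [not_le] at hle
    by_cases hfull : ∀ i, i ∉ S → κ1 i ≠ κ1 j → sz a (cl S κ1 (κ1 i)) = c
    · by_cases he1 : c + 2 ≤ sz a S + sz a (cl S κ1 (κ1 j))
      · exact caseE ha hn hev hC hj hjs hmin hD' hle hfull he1
      · have := hC.hsb j hj
        exact caseF ha hn hev hC hj hjs hmin hD' hfull (by omega) hk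
    · push Not at hfull
      obtain ⟨i, hi, hij, hne⟩ := hfull
      have := hC.hb i hi
      exact caseN ha hn hev hC hj hjs hmin hD' hle i hi hij (lt_of_le_of_ne this hne)

end Pool.Agent.NH75.MP
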