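import Pool.Agent.NH75.MP.Cases3

set_option autoImplicit false
set_option linter.unusedSectionVars false

/-! The characterisation of the number of disjoint perfect matchings. -/

namespace Pool.Agent.NH75.MP

open Finset SimpleGraph

variable {ι : Type} [Fintype ι] [DecidableEq ι]

/-- the quantity that has to be nonnegative -/
def ff (a : ι → ℕ) (k : ℕ) (Q : Finset ι) : ℤ :=
  (k : ℤ) * sz a univ - 2 * k * sz a Q + (sz a Q : ℤ) ^ 2 - ∑ i ∈ Q, (a i : ℤ) ^ 2

theorem PMs_of [Nonempty ι] (a : ι → ℕ) (ha : ∀ i, 0 < a i) (k : ℕ) (hev : Even (sz a univ))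
    (h1 : ∀ i, k + a i ≤ sz a univ) (h2 : ∀ Q, 0 ≤ ff a k Q) : PMs a k := by
  classical
  rcases Nat.lt_or_ge k 2 with hk | hk
  · rcases Nat.eq_zero_or_pos k with h0 | h0
    · subst h0
      exact ⟨fun c => c.elim0, fun c => c.elim0, fun c => c.elim0, fun c => c.elim0⟩
    · have h1 : k = 1 := by omega
      subst h1
      obtain ⟨e⟩ : Nonempty (ι ≃ Fin (Fintype.card ι)) := ⟨Fintype.equivFin ι⟩
      have hcard : Fintype.card (Σ i, Fin (a i)) = sz a univ := by
        simp [sz]
      obtain ⟨f, hf1, hf2⟩ := exists_pm (fun v : (Σ i, Fin (a i)) => (e v.1).val)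
        (by rw [hcard]; exact hev) (by
          intro m
          rw [hcard]
          by_cases hm : ∃ i, (e i).val = m
          · obtain ⟨i, rfl⟩ := hm
            rw [card_filter_fst a (fun x => (e x).val = (e i).val)]
            have h3 : (univ.filter fun x => (e x).val = (e i).val) = {i} := by
              ext x
              simp only [mem_filter, mem_univ, true_and, mem_singleton]
              constructor
              · intro h
                exact e.injective (Fin.ext h)
              · rintro rfl; rfl
            rw [h3]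
            have h4 := h2 {i}
            simp only [ff, sz, Finset.sum_singleton] at h4
            have h5 : sz a {i} = a i := by simp [sz]
            rw [h5]
            have h6 : (2 : ℤ) * a i ≤ sz a univ := by
              simp only [sz]
              push_cast at h4 ⊢
              linarith
            exact_mod_cast h6
          · have : (univ.filter fun v : (Σ i, Fin (a i)) => (e v.1).val = m) = ∅ := by
              ext v
              simp only [mem_filter, mem_univ, true_and, notMem_empty, iff_false]
              intro h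
              exact hm ⟨_, h⟩
            rw [this]
            simp)
      refine ⟨fun _ => f, fun _ => hf1, ?_, ?_⟩
      · intro _ x h
        exact hf2 x (by rw [h])
      · intro c c' _ _
        exact Subsingleton.elim _ _
  · obtain ⟨c, hc⟩ : ∃ c, sz a univ = k + c := by
      have i : ι := Classical.arbitrary ι
      exact Nat.exists_eq_add_of_le (by have := h1 i; omega)
    refine exists_PMs a ha c k hk hc hev (fun i => by have := h1 i; omega) ?_
    intro S
    have h3 := h2 Sᶜ
    have hsplit : (sz a S : ℤ) + sz a Sᶜ = sz a univ := by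
      exact_mod_cast Finset.sum_add_sum_compl S a
    have hc' : (sz a univ : ℤ) = k + c := by exact_mod_cast hc
    have h4 : ∑ i ∈ Sᶜ, (a i : ℤ) * ((c : ℤ) - a i) =
        (c : ℤ) * sz a Sᶜ - ∑ i ∈ Sᶜ, (a i : ℤ) ^ 2 := by
      have : (sz a Sᶜ : ℤ) = ∑ i ∈ Sᶜ, (a i : ℤ) := by rw [sz]; push_cast; rfl
      rw [this, Finset.mul_sum, ← Finset.sum_sub_distrib]
      apply Finset.sum_congr rfl
      intro i _
      ring
    rw [h4]
    unfold ff at h3
    have e1 : (sz a S : ℤ) = k + c - sz a Sᶜ := by linarith
    rw [hc'] at h3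
    rw [e1]
    nlinarith

theorem of_PMs (a : ι → ℕ) (ha : ∀ i, 0 < a i) (k : ℕ) (h : PMs a k) :
    (∀ i, k + a i ≤ sz a univ) ∧ ∀ Q, 0 ≤ ff a k Q := by
  classical
  obtain ⟨M, hM1, hM2, hM3⟩ := h
  constructor
  · intro i
    have h1 : k ≤ (univ.filter fun v : (Σ i, Fin (a i)) => v.1 ≠ i).card := by
      have := Finset.card_le_card_of_injOn (s := (univ : Finset (Fin k)))
        (t := univ.filter fun v : (Σ i, Fin (a i)) => v.1 ≠ i)
        (fun c => M c ⟨i, ⟨0, ha i⟩⟩) (by
          intro c _
          rw [Finset.mem_coe, mem_filter]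
          exact ⟨mem_univ _, hM2 c _⟩) (by
          intro c _ c' _ h
          exact hM3 c c' _ h)
      rwa [card_univ, Fintype.card_fin] at this
    rw [card_filter_fst a (fun x => x ≠ i)] at h1
    have h2 : sz a (univ.filter fun x => x ≠ i) + a i = sz a univ := by
      have : (univ.filter fun x : ι => x ≠ i) = univ.erase i := by
        ext x; simp
      rw [this]
      exact Finset.sum_erase_add _ _ (mem_univ i)
    omega
  · intro Q
    -- vertices of `Q` matched inside `Q`
    have h1 : ∀ c, 2 * sz a Q ≤ sz a univ + ((vs a Q).filter fun v => M c v ∈ vs a Q).card := by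
      intro c
      have e1 := Finset.card_filter_add_card_filter_not (s := vs a Q) (fun v => M c v ∈ vs a Q)
      have e2 : ((vs a Q).filter fun v => ¬ M c v ∈ vs a Q).card ≤ (vs a Qᶜ).card := by
        apply Finset.card_le_card_of_injOn (fun v => M c v)
        · intro v hv
          rw [Finset.mem_coe, mem_filter] at hv
          rw [Finset.mem_coe, mem_vs, mem_compl]
          exact fun h => hv.2 (mem_vs.2 h)
        · intro v _ v' _ h
          have h' : M c v = M c v' := h
          rw [← hM1 c v, h', hM1]
      rw [card_vs] at e1 e2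
      have e3 : sz a Q + sz a Qᶜ = sz a univ := Finset.sum_add_sum_compl Q a
      omega
    have h2 : ∑ c, ((vs a Q).filter fun v => M c v ∈ vs a Q).card ≤
        ((vs a Q ×ˢ vs a Q).filter fun p => p.1.1 ≠ p.2.1).card := by
      rw [← Finset.card_sigma]
      apply Finset.card_le_card_of_injOn
        (fun p : (Σ _ : Fin k, (Σ i, Fin (a i))) => (p.2, M p.1 p.2))
      · rintro ⟨c, v⟩ hv
        rw [Finset.mem_coe, mem_sigma, mem_filter] at hv
        rw [Finset.mem_coe, mem_filter, mem_product]
        exact ⟨⟨hv.2.1, hv.2.2⟩, (hM2 c v).symm⟩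
      · rintro ⟨c, v⟩ _ ⟨c', v'⟩ _ h
        simp only [Prod.mk.injEq] at h
        obtain ⟨rfl, h⟩ := h
        rw [hM3 c c' v h]
    have h3 : ((vs a Q ×ˢ vs a Q).filter fun p => p.1.1 ≠ p.2.1).card +
        ∑ i ∈ Q, a i ^ 2 = sz a Q ^ 2 := by
      have e1 := Finset.card_filter_add_card_filter_not (s := vs a Q ×ˢ vs a Q)
        (fun p => p.1.1 ≠ p.2.1)
      rw [card_product, card_vs] at e1
      have e2 : ((vs a Q ×ˢ vs a Q).filter fun p => ¬ p.1.1 ≠ p.2.1).card =
          ∑ i ∈ Q, a i ^ 2 := by
        have e3 : ((vs a Q ×ˢ vs a Q).filter fun p => ¬ p.1.1 ≠ p.2.1) =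
            Q.biUnion (fun i => vs a {i} ×ˢ vs a {i}) := by
          ext p
          simp only [mem_filter, mem_product, mem_vs, mem_biUnion, mem_singleton, ne_eq, not_not]
          constructor
          · rintro ⟨⟨h1, _⟩, h3⟩
            exact ⟨p.1.1, h1, rfl, h3.symm⟩
          · rintro ⟨i, hi, h1, h2⟩
            rw [h1, h2]
            exact ⟨⟨hi, hi⟩, rfl⟩
        rw [e3, Finset.card_biUnion]
        · apply Finset.sum_congr rfl
          intro i _
          rw [card_product, card_vs, sz, Finset.sum_singleton, sq]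
        · intro i _ j _ hij
          rw [Function.onFun, Finset.disjoint_left]
          intro p hp hp'
          rw [mem_product, mem_vs, mem_singleton] at hp hp'
          exact hij (hp.1.symm.trans hp'.1)
      rw [e2] at e1
      rw [sq (sz a Q)]
      exact e1
    have h4 : k * (2 * sz a Q) ≤
        k * sz a univ + ∑ c, ((vs a Q).filter fun v => M c v ∈ vs a Q).card := by
      have := Finset.sum_le_sum (s := (univ : Finset (Fin k))) (fun c _ => h1 c)
      rw [Finset.sum_const, Finset.sum_add_distrib, Finset.sum_const, card_univ,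
        Fintype.card_fin, smul_eq_mul, smul_eq_mul] at this
      exact this
    have h5 : k * (2 * sz a Q) + ∑ i ∈ Q, a i ^ 2 ≤ k * sz a univ + sz a Q ^ 2 := by omega
    have h6 : ((k * (2 * sz a Q) + ∑ i ∈ Q, a i ^ 2 : ℕ) : ℤ) ≤
        ((k * sz a univ + sz a Q ^ 2 : ℕ) : ℤ) := by exact_mod_cast h5
    push_cast at h6
    unfold ff
    linarith

/-- a perfect matching needs an even number of vertices -/
theorem even_of_PMs (a : ι → ℕ) (k : ℕ) (hk : 1 ≤ k) (h : PMs a k) : Even (sz a univ) := by
  classical
  obtain ⟨M, hM1, hM2, -⟩ := h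
  let M0 := M ⟨0, hk⟩
  obtain ⟨i, hi⟩ := Pool.Agent.X76.PM.fix_parity M0 (hM1 _) univ (fun x _ => mem_univ _)
  have h0 : (univ.filter fun x => ¬ M0 x = x) = univ := by
    ext x
    simp only [mem_filter, mem_univ, true_and, iff_true]
    intro h
    have := hM2 ⟨0, hk⟩ x
    exact this (by rw [show M ⟨0, hk⟩ x = x from h])
  have hcard : Fintype.card (Σ i, Fin (a i)) = sz a univ := by
    simp [sz]
  rw [← hcard, ← card_univ]
  rw [h0] at hi
  exact ⟨i, hi⟩

end Pool.Agent.NH75.MP
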