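import Pool.Agent.NH75.MP.Asm

set_option autoImplicit false

/-! Disjoint perfect matchings of complete multipartite graphs from a graph between the classes. -/

namespace Pool.Agent.NH75.MP

open Finset SimpleGraph

variable {ι ℓ : Type} [Fintype ι] [DecidableEq ι] [DecidableEq ℓ]

/-- the total size of a set of parts -/
def sz (a : ι → ℕ) (T : Finset ι) : ℕ := ∑ i ∈ T, a i

/-- `k` pairwise disjoint perfect matchings of the complete multipartite graph, as fixed point free
involutions. -/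
def PMs (a : ι → ℕ) (k : ℕ) : Prop :=
  ∃ M : Fin k → (Σ i, Fin (a i)) → (Σ i, Fin (a i)), (∀ c x, M c (M c x) = x) ∧
    (∀ c x, (M c x).1 ≠ x.1) ∧ (∀ c c' x, M c x = M c' x → c = c')

omit [DecidableEq ι] in
theorem card_filter_fst (a : ι → ℕ) (P : ι → Prop) [DecidablePred P] :
    (univ.filter fun v : (Σ i, Fin (a i)) => P v.1).card = sz a (univ.filter P) := by
  rw [Finset.card_filter, Fintype.sum_sigma, sz, Finset.sum_filter]
  apply Finset.sum_congr rfl
  intro i _
  by_cases h : P i <;> simp [h]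

theorem lemG0 (a : ι → ℕ) (S : Finset ι) (k : ℕ) (hev : Even (sz a univ))
    (F : SimpleGraph (Σ i, Fin (a i))) [DecidableRel F.Adj]
    (hF : ∀ u v, F.Adj u v → u.1 ∉ S ∧ v.1 ∉ S ∧ u.1 ≠ v.1)
    (h1 : ∀ v : (Σ i, Fin (a i)), v.1 ∉ S → F.degree v + 1 ≤ k)
    (h2 : ∀ v : (Σ i, Fin (a i)), v.1 ∉ S → k ≤ F.degree v + sz a S)
    (hsum : ∑ v, F.degree v + k * sz a S = k * sz a Sᶜ) : PMs a k := by
  classical
  let U : Type := {v : (Σ i, Fin (a i)) // v.1 ∉ S}
  let F' : SimpleGraph U := F.comap Subtype.val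
  have hdeg : ∀ v : U, F'.degree v = F.degree v.1 := by
    intro v
    rw [← SimpleGraph.card_neighborFinset_eq_degree, ← SimpleGraph.card_neighborFinset_eq_degree]
    rw [← Finset.card_map (Function.Embedding.subtype _)]
    congr 1
    ext u
    simp only [mem_map, mem_neighborFinset, Function.Embedding.coe_subtype]
    constructor
    · rintro ⟨w, hw, rfl⟩
      exact hw
    · intro h
      exact ⟨⟨u, (hF _ _ h).2.1⟩, h, rfl⟩
  have hzero : ∀ v : (Σ i, Fin (a i)), v.1 ∈ S → F.degree v = 0 := by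
    intro v hv
    rw [← SimpleGraph.card_neighborFinset_eq_degree, Finset.card_eq_zero]
    ext u
    simp only [mem_neighborFinset, notMem_empty, iff_false]
    intro h
    exact (hF _ _ h).1 hv
  have hsumd : ∑ v : U, F'.degree v = ∑ v, F.degree v := by
    rw [Finset.sum_congr rfl (fun v _ => hdeg v)]
    rw [← Finset.sum_filter_add_sum_filter_not univ (fun v : (Σ i, Fin (a i)) => v.1 ∉ S)]
    rw [Finset.sum_eq_zero (s := univ.filter fun v : (Σ i, Fin (a i)) => ¬ v.1 ∉ S)]
    · rw [add_zero]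
      symm
      exact Finset.sum_subtype _ (by intro x; simp) _
    · intro v hv
      rw [mem_filter] at hv
      exact hzero v (not_not.1 hv.2)
  have hcardU : Fintype.card U = sz a Sᶜ := by
    rw [Fintype.card_subtype, card_filter_fst a (fun i => i ∉ S)]
    congr 1
    ext i
    simp
  have hcardS : Fintype.card {v : (Σ i, Fin (a i)) // ¬ v.1 ∉ S} = sz a S := by
    rw [Fintype.card_subtype, card_filter_fst a (fun i => ¬ i ∉ S)]
    congr 1
    ext i
    simp
  have hsplit : sz a S + sz a Sᶜ = sz a univ := Finset.sum_add_sum_compl S a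
  obtain ⟨M, hM1, hM2, hM3, hM4⟩ := assemble F' k (sz a S)
    (fun v => by rw [hdeg]; exact h1 v.1 v.2)
    (fun v => by rw [hdeg]; exact h2 v.1 v.2)
    (by
      rw [hcardU]
      rw [← hsplit] at hev
      obtain ⟨r, hr⟩ := hev
      omega)
    (by rw [hsumd, hcardU]; exact hsum)
  let eS : {v : (Σ i, Fin (a i)) // ¬ v.1 ∉ S} ≃ Fin (sz a S) := Fintype.equivFinOfCardEq hcardS
  let e : (Σ i, Fin (a i)) ≃ U ⊕ Fin (sz a S) :=
    (Equiv.sumCompl (fun v : (Σ i, Fin (a i)) => v.1 ∉ S)).symm.trans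
      (Equiv.sumCongr (Equiv.refl _) eS)
  have he1 : ∀ v (h : v.1 ∉ S), e v = Sum.inl ⟨v, h⟩ := by
    intro v h
    simp only [e, Equiv.trans_apply]
    rw [Equiv.sumCompl_symm_apply_of_pos (p := fun v : (Σ i, Fin (a i)) => v.1 ∉ S) h]
    rfl
  have he2 : ∀ v (_ : v.1 ∈ S), ∃ i, e v = Sum.inr i := by
    intro v h
    simp only [e, Equiv.trans_apply]
    rw [Equiv.sumCompl_symm_apply_of_neg (p := fun v : (Σ i, Fin (a i)) => v.1 ∉ S)
      (not_not.2 h)]
    exact ⟨_, rfl⟩
  refine ⟨fun c x => e.symm (M c (e x)), ?_, ?_, ?_⟩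
  · intro c x
    simp [hM1]
  · intro c x hx
    set y := e.symm (M c (e x)) with hy
    have hy' : e y = M c (e x) := by rw [hy]; simp
    by_cases hxS : x.1 ∈ S
    · have hyS : y.1 ∈ S := hx ▸ hxS
      obtain ⟨i, hi⟩ := he2 x hxS
      obtain ⟨j, hj⟩ := he2 y hyS
      rw [hi, hj] at hy'
      exact hM3 c i j hy'.symm
    · have hyS : y.1 ∉ S := hx ▸ hxS
      rw [he1 x hxS, he1 y hyS] at hy'
      have h := hM2 c _ _ hy'.symm
      exact (hF _ _ h).2.2 hx.symm
  · intro c c' x h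
    exact hM4 c c' (e x) (e.symm.injective h)

/-- the parts outside `S` with label `m` -/
def cl (S : Finset ι) (κ : ι → ℓ) (m : ℓ) : Finset ι := univ.filter (fun i => i ∉ S ∧ κ i = m)

theorem lemG (a : ι → ℕ) (S : Finset ι) (κ : ι → ℓ) (c k : ℕ) (hn : sz a univ = k + c)
    (hev : Even (sz a univ)) (X Y : SimpleGraph (Σ i, Fin (a i)))
    [DecidableRel X.Adj] [DecidableRel Y.Adj]
    (hX : ∀ u v, X.Adj u v → u.1 ∉ S ∧ v.1 ∉ S ∧ κ u.1 = κ v.1 ∧ u.1 ≠ v.1)
    (hY : ∀ u v, Y.Adj u v → u.1 ∉ S ∧ v.1 ∉ S ∧ κ u.1 ≠ κ v.1)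
    (h1 : ∀ v : (Σ i, Fin (a i)), v.1 ∉ S →
      X.degree v + c + 1 ≤ sz a S + sz a (cl S κ (κ v.1)) + Y.degree v)
    (h2 : ∀ v : (Σ i, Fin (a i)), v.1 ∉ S →
      sz a (cl S κ (κ v.1)) + Y.degree v ≤ c + X.degree v)
    (hsum : (∑ i ∈ Sᶜ, (a i : ℤ) * ((c : ℤ) - sz a (cl S κ (κ i)))) + ∑ v, (X.degree v : ℤ) =
      (sz a S : ℤ) * ((c : ℤ) - sz a S) + ∑ v, (Y.degree v : ℤ)) : PMs a k := by
  classical
  have hsplit : sz a S + sz a Sᶜ = sz a univ := Finset.sum_add_sum_compl S a
  let F : SimpleGraph (Σ i, Fin (a i)) :=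
    { Adj := fun u v => u.1 ∉ S ∧ v.1 ∉ S ∧ ((κ u.1 ≠ κ v.1 ∧ ¬ Y.Adj u v) ∨ X.Adj u v)
      symm := ⟨by
        rintro u v ⟨hu, hv, h⟩
        refine ⟨hv, hu, ?_⟩
        rcases h with ⟨h, h'⟩ | h
        · exact Or.inl ⟨h.symm, fun h3 => h' h3.symm⟩
        · exact Or.inr h.symm⟩
      loopless := ⟨by
        rintro u ⟨_, _, h⟩
        rcases h with ⟨h, _⟩ | h
        · exact h rfl
        · exact h.ne rfl⟩ }
  have hdeg : ∀ v : (Σ i, Fin (a i)), v.1 ∉ S →
      F.degree v + sz a (cl S κ (κ v.1)) + Y.degree v = sz a Sᶜ + X.degree v := by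
    intro v hv
    set A := univ.filter fun u : (Σ i, Fin (a i)) => u.1 ∉ S with hA
    have hAc : A.card = sz a Sᶜ := by
      rw [hA, card_filter_fst a (fun i => i ∉ S)]
      congr 1
      ext i
      simp
    have hB : (univ.filter fun u : (Σ i, Fin (a i)) => u.1 ∉ S ∧ κ u.1 = κ v.1).card =
        sz a (cl S κ (κ v.1)) := by
      rw [card_filter_fst a (fun i => i ∉ S ∧ κ i = κ v.1)]
      rfl
    set B := univ.filter fun u : (Σ i, Fin (a i)) => u.1 ∉ S ∧ κ u.1 = κ v.1 with hBd
    set C := univ.filter fun u : (Σ i, Fin (a i)) => u.1 ∉ S ∧ κ u.1 ≠ κ v.1 ∧ ¬ Y.Adj v u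
      with hCd
    have e1 : A = (B ∪ C) ∪ Y.neighborFinset v := by
      ext u
      simp only [hA, hBd, hCd, mem_union, mem_filter, mem_univ, true_and, mem_neighborFinset]
      constructor
      · intro h
        by_cases h3 : κ u.1 = κ v.1
        · exact Or.inl (Or.inl ⟨h, h3⟩)
        · by_cases h4 : Y.Adj v u
          · exact Or.inr h4
          · exact Or.inl (Or.inr ⟨h, h3, h4⟩)
      · rintro ((h | h) | h)
        · exact h.1
        · exact h.1
        · exact (hY _ _ h).2.1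
    have e2 : F.neighborFinset v = C ∪ X.neighborFinset v := by
      ext u
      simp only [hCd, mem_union, mem_filter, mem_univ, true_and, mem_neighborFinset]
      constructor
      · rintro ⟨_, h, h3⟩
        rcases h3 with ⟨h3, h4⟩ | h3
        · exact Or.inl ⟨h, h3.symm, h4⟩
        · exact Or.inr h3
      · rintro (⟨h, h3, h4⟩ | h)
        · exact ⟨hv, h, Or.inl ⟨h3.symm, h4⟩⟩
        · exact ⟨hv, (hX _ _ h).2.1, Or.inr h⟩
    have d1 : Disjoint B C := by
      rw [Finset.disjoint_left]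
      intro u hu hu'
      rw [hBd, mem_filter] at hu
      rw [hCd, mem_filter] at hu'
      exact hu'.2.2.1 hu.2.2
    have d2 : Disjoint (B ∪ C) (Y.neighborFinset v) := by
      rw [Finset.disjoint_left]
      intro u hu hu'
      rw [mem_neighborFinset] at hu'
      rw [mem_union] at hu
      rcases hu with hu | hu
      · rw [hBd, mem_filter] at hu
        exact (hY _ _ hu').2.2 hu.2.2.symm
      · rw [hCd, mem_filter] at hu
        exact hu.2.2.2 hu'
    have d3 : Disjoint C (X.neighborFinset v) := by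
      rw [Finset.disjoint_left]
      intro u hu hu'
      rw [mem_neighborFinset] at hu'
      rw [hCd, mem_filter] at hu
      exact hu.2.2.1 (hX _ _ hu').2.2.1.symm
    have c1 : A.card = B.card + C.card + Y.degree v := by
      rw [e1, card_union_of_disjoint d2, card_union_of_disjoint d1, card_neighborFinset_eq_degree]
    have c2 : F.degree v = C.card + X.degree v := by
      rw [← card_neighborFinset_eq_degree, e2, card_union_of_disjoint d3,
        card_neighborFinset_eq_degree]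
    omega
  have hzero : ∀ v : (Σ i, Fin (a i)), v.1 ∈ S →
      F.degree v = 0 ∧ X.degree v = 0 ∧ Y.degree v = 0 := by
    intro v hv
    refine ⟨?_, ?_, ?_⟩
    · rw [← SimpleGraph.card_neighborFinset_eq_degree, Finset.card_eq_zero]
      ext u
      simp only [mem_neighborFinset, notMem_empty, iff_false]
      intro h
      exact h.1 hv
    · rw [← SimpleGraph.card_neighborFinset_eq_degree, Finset.card_eq_zero]
      ext u
      simp only [mem_neighborFinset, notMem_empty, iff_false]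
      intro h
      exact (hX _ _ h).1 hv
    · rw [← SimpleGraph.card_neighborFinset_eq_degree, Finset.card_eq_zero]
      ext u
      simp only [mem_neighborFinset, notMem_empty, iff_false]
      intro h
      exact (hY _ _ h).1 hv
  refine lemG0 a S k hev F ?_ ?_ ?_ ?_
  · rintro u v ⟨hu, hv, h⟩
    refine ⟨hu, hv, ?_⟩
    rcases h with ⟨h, _⟩ | h
    · exact fun h3 => h (by rw [h3])
    · exact (hX _ _ h).2.2.2
  · intro v hv
    have := hdeg v hv
    have := h1 v hv
    omega
  · intro v hv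
    have := hdeg v hv
    have := h2 v hv
    omega
  · -- the number of edges
    have key : ∀ v : (Σ i, Fin (a i)), (F.degree v : ℤ) + Y.degree v =
        (if v.1 ∉ S then ((sz a Sᶜ : ℤ) - sz a (cl S κ (κ v.1))) else 0) + X.degree v := by
      intro v
      by_cases hv : v.1 ∈ S
      · obtain ⟨z1, z2, z3⟩ := hzero v hv
        rw [z1, z2, z3, if_neg (not_not.2 hv)]
        rfl
      · rw [if_pos hv]
        have := hdeg v hv
        omega
    have hs1 : ∑ v, ((F.degree v : ℤ) + Y.degree v) = ∑ v : (Σ i, Fin (a i)),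
        ((if v.1 ∉ S then ((sz a Sᶜ : ℤ) - sz a (cl S κ (κ v.1))) else 0) + X.degree v) :=
      Finset.sum_congr rfl (fun v _ => key v)
    rw [Finset.sum_add_distrib, Finset.sum_add_distrib] at hs1
    have hs2 : ∑ v : (Σ i, Fin (a i)),
        (if v.1 ∉ S then ((sz a Sᶜ : ℤ) - sz a (cl S κ (κ v.1))) else 0) =
        ∑ i ∈ Sᶜ, (a i : ℤ) * ((sz a Sᶜ : ℤ) - sz a (cl S κ (κ i))) := by
      rw [Fintype.sum_sigma]
      simp only [Finset.sum_const, card_univ, Fintype.card_fin, nsmul_eq_mul]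
      rw [← Finset.sum_filter_add_sum_filter_not univ (fun i => i ∉ S)]
      rw [Finset.sum_eq_zero (s := univ.filter fun i => ¬ i ∉ S)]
      · rw [add_zero]
        have : univ.filter (fun i => i ∉ S) = Sᶜ := by ext i; simp
        rw [this]
        apply Finset.sum_congr rfl
        intro i hi
        rw [if_pos (by simpa using hi)]
      · intro i hi
        rw [mem_filter] at hi
        rw [if_neg hi.2, mul_zero]
    have hx : (sz a Sᶜ : ℤ) = ∑ i ∈ Sᶜ, (a i : ℤ) := by
      rw [sz]; push_cast; rfl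
    have hs3 : ∑ i ∈ Sᶜ, (a i : ℤ) * ((sz a Sᶜ : ℤ) - sz a (cl S κ (κ i))) =
        ∑ i ∈ Sᶜ, (a i : ℤ) * ((c : ℤ) - sz a (cl S κ (κ i))) +
          (sz a Sᶜ : ℤ) * ((sz a Sᶜ : ℤ) - c) := by
      conv_rhs => rw [hx]
      rw [Finset.sum_mul, ← Finset.sum_add_distrib]
      rw [← hx]
      apply Finset.sum_congr rfl
      intro i _
      ring
    have hk : (k : ℤ) = sz a S + sz a Sᶜ - c := by
      have : ((sz a S + sz a Sᶜ : ℕ) : ℤ) = ((k + c : ℕ) : ℤ) := by rw [hsplit, hn]
      push_cast at this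
      linarith
    have goal : ((∑ v, F.degree v + k * sz a S : ℕ) : ℤ) = ((k * sz a Sᶜ : ℕ) : ℤ) := by
      push_cast
      rw [hk]
      linear_combination hs1 + hs2 + hs3 + hsum
    exact_mod_cast goal

end Pool.Agent.NH75.MP
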