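import Pool.Agent.NH75.MP.Fin

set_option autoImplicit false

/-! It is enough to test the sets of the largest parts. -/

namespace Pool.Agent.NH75.MP

open Finset SimpleGraph

theorem ff_erase {ι : Type} [Fintype ι] [DecidableEq ι] (a : ι → ℕ) (k : ℕ) (Q : Finset ι) (i : ι)
    (hi : i ∈ Q) : ff a k (Q.erase i) = ff a k Q + 2 * a i * ((k : ℤ) - (sz a Q - a i)) := by
  have h1 : (sz a (Q.erase i) : ℤ) = sz a Q - a i := by
    have := Finset.sum_erase_add Q a hi
    have : sz a (Q.erase i) + a i = sz a Q := this
    have h : ((sz a (Q.erase i) + a i : ℕ) : ℤ) = sz a Q := by exact_mod_cast this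
    push_cast at h
    linarith
  have h2 : ∑ j ∈ Q.erase i, (a j : ℤ) ^ 2 = ∑ j ∈ Q, (a j : ℤ) ^ 2 - (a i : ℤ) ^ 2 := by
    have := Finset.sum_erase_add Q (fun j => (a j : ℤ) ^ 2) hi
    linarith
  unfold ff
  rw [h1, h2]
  ring

theorem ff_swap {ι : Type} [Fintype ι] [DecidableEq ι] (a : ι → ℕ) (k : ℕ) (Q : Finset ι) (i j : ι)
    (hi : i ∈ Q) (hj : j ∉ Q) : ff a k (insert j (Q.erase i)) =
      ff a k Q + 2 * ((a j : ℤ) - a i) * ((sz a Q - a i) - k) := by
  have hj' : j ∉ Q.erase i := fun h => hj (Finset.mem_of_mem_erase h)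
  have h0 := ff_erase a k (insert j (Q.erase i)) j (mem_insert_self _ _)
  rw [Finset.erase_insert hj'] at h0
  have h1 := ff_erase a k Q i hi
  have h3 : (sz a (insert j (Q.erase i)) : ℤ) = sz a (Q.erase i) + a j := by
    have := Finset.sum_insert (f := a) hj'
    have h4 : sz a (insert j (Q.erase i)) = a j + sz a (Q.erase i) := this
    rw [h4]
    push_cast
    ring
  have h4 : (sz a (Q.erase i) : ℤ) = sz a Q - a i := by
    have := Finset.sum_erase_add Q a hi
    have : sz a (Q.erase i) + a i = sz a Q := this
    have h : ((sz a (Q.erase i) + a i : ℕ) : ℤ) = sz a Q := by exact_mod_cast this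
    push_cast at h
    linarith
  rw [h3, h4] at h0
  linarith

/-- tails are enough -/
theorem ff_of_tails {p : ℕ} (a : Fin p → ℕ) (hmono : Monotone a) (k : ℕ)
    (h : ∀ t : Fin p, 0 ≤ ff a k (Finset.Ici t)) (Q : Finset (Fin p)) : 0 ≤ ff a k Q := by
  induction hm : ∑ i ∈ Q, (p - i.val) using Nat.strong_induction_on generalizing Q with
  | _ m ih =>
    rcases Q.eq_empty_or_nonempty with rfl | hne
    · unfold ff sz
      simp only [Finset.sum_empty]
      have : (0 : ℤ) ≤ (k : ℤ) * ((∑ i : Fin p, a i : ℕ) : ℤ) := by positivity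
      push_cast at this ⊢
      linarith
    · have himin := Finset.min'_mem Q hne
      set i := Q.min' hne with hidef
      by_cases htail : Q = Finset.Ici i
      · rw [htail]
        exact h i
      · have hsub : Q ⊆ Finset.Ici i := by
          intro x hx
          rw [Finset.mem_Ici]
          exact Finset.min'_le Q x hx
        obtain ⟨j, hj1, hj2⟩ : ∃ j, j ∈ Finset.Ici i ∧ j ∉ Q := by
          by_contra hcon
          push Not at hcon
          exact htail (Finset.Subset.antisymm hsub hcon)
        rw [Finset.mem_Ici] at hj1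
        have hij : i < j := lt_of_le_of_ne hj1 (by rintro h; exact hj2 (h ▸ himin))
        have hmi : ∑ x ∈ Q.erase i, (p - x.val) + (p - i.val) = m := by
          rw [← hm]
          exact Finset.sum_erase_add _ _ himin
        by_cases hk : (k : ℤ) ≤ sz a Q - a i
        · have h1 := ih (∑ x ∈ Q.erase i, (p - x.val)) (by have := i.isLt; omega) (Q.erase i) rfl
          rw [ff_erase a k Q i himin] at h1
          have h2 : 2 * (a i : ℤ) * ((k : ℤ) - (sz a Q - a i)) ≤ 0 :=
            mul_nonpos_of_nonneg_of_nonpos (by positivity) (by linarith)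
          linarith
        · have hjn : j ∉ Q.erase i := fun h => hj2 (Finset.mem_of_mem_erase h)
          have hlt : i.val < j.val := hij
          have h1 := ih (∑ x ∈ insert j (Q.erase i), (p - x.val)) (by
            rw [Finset.sum_insert hjn]
            have := j.isLt
            omega) (insert j (Q.erase i)) rfl
          rw [ff_swap a k Q i j himin hj2] at h1
          have hmon : (a i : ℤ) ≤ a j := by exact_mod_cast hmono hij.le
          have h2 : 2 * ((a j : ℤ) - a i) * (((sz a Q : ℤ) - a i) - k) ≤ 0 :=
            mul_nonpos_of_nonneg_of_nonpos (by linarith) (by linarith)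
          linarith

/-- perfect matchings as subgraphs -/
theorem subgraphs_of_PMs {ι : Type} [Fintype ι] [DecidableEq ι] (a : ι → ℕ) (k : ℕ)
    (h : PMs a k) : ∃ M : Fin k → (completeMultipartiteGraph fun i => Fin (a i)).Subgraph,
      (∀ c, (M c).IsPerfectMatching) ∧
        Pairwise fun c d => Disjoint (M c).edgeSet (M d).edgeSet := by
  obtain ⟨M, hM1, hM2, hM3⟩ := h
  let N : Fin k → (completeMultipartiteGraph fun i => Fin (a i)).Subgraph := fun c =>
    { verts := Set.univ
      Adj := fun v w => M c v = w
      adj_sub := by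
        rintro v w rfl
        rw [comap_adj, top_adj]
        exact (hM2 c v).symm
      edge_vert := fun _ => Set.mem_univ _
      symm := ⟨by
        rintro v w rfl
        exact hM1 c v⟩ }
  refine ⟨N, ?_, ?_⟩
  · intro c
    rw [Subgraph.isPerfectMatching_iff]
    intro v
    refine ⟨M c v, rfl, fun w hw => ?_⟩
    have hw' : M c v = w := hw
    exact hw'.symm
  · intro c d hcd
    rw [Set.disjoint_left]
    intro e
    induction e using Sym2.ind with
    | _ v w =>
      intro h1 h2
      rw [Subgraph.mem_edgeSet] at h1 h2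
      have h1' : M c v = w := h1
      have h2' : M d v = w := h2
      exact hcd (hM3 c d v (h1'.trans h2'.symm))

theorem PMs_of_subgraphs {ι : Type} [Fintype ι] [DecidableEq ι] (a : ι → ℕ) (k : ℕ)
    (h : ∃ M : Fin k → (completeMultipartiteGraph fun i => Fin (a i)).Subgraph,
      (∀ c, (M c).IsPerfectMatching) ∧
        Pairwise fun c d => Disjoint (M c).edgeSet (M d).edgeSet) : PMs a k := by
  obtain ⟨N, hN1, hN2⟩ := h
  have h1 : ∀ c v, ∃! w, (N c).Adj v w := fun c => Subgraph.isPerfectMatching_iff.1 (hN1 c)
  choose M hM using h1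
  refine ⟨M, ?_, ?_, ?_⟩
  · intro c x
    exact ((hM c (M c x)).2 x ((hM c x).1.symm)).symm
  · intro c x
    have := (N c).adj_sub (hM c x).1
    rw [comap_adj, top_adj] at this
    exact fun h => this h.symm
  · intro c d x hx
    by_contra hcd
    have h2 : Disjoint (N c).edgeSet (N d).edgeSet := hN2 hcd
    rw [Set.disjoint_left] at h2
    refine h2 (a := s(x, M c x)) ?_ ?_
    · rw [Subgraph.mem_edgeSet]
      exact (hM c x).1
    · rw [Subgraph.mem_edgeSet, hx]
      exact (hM d x).1

end Pool.Agent.NH75.MP
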